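import Mathlib

/-!
Definitions: geodesic words, geodesic growth, and spinal groups acting on a regular rooted tree.
The vertices of the tree over the alphabet `X` are the finite words `List X`.
-/

namespace Pool.Agent.Helper90.Spinal

/-- A word `l` over `S` is geodesic when no shorter word over `S` has the same value. -/
def IsGeodesic {G : Type*} [Monoid G] (S : Set G) (l : List G) : Prop :=
  (∀ s ∈ l, s ∈ S) ∧
    ∀ l' : List G, (∀ s ∈ l', s ∈ S) → l'.prod = l.prod → l.length ≤ l'.length

/-- The geodesic growth function of the group generated by `S`, with respect to `S`. -/
noncomputable def geodesicGrowth {G : Type*} [Monoid G] (S : Set G) (n : ℕ) : ℕ :=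
  Set.ncard {l : List G | IsGeodesic S l ∧ l.length ≤ n}

variable {X A B : Type*} [DecidableEq X] [Group A] [Group B] [MulAction A X]

/-- The rooted automorphism given by `α`: it acts on the first letter only. -/
def rootFun (α : A) : List X → List X
  | [] => []
  | x :: v => (α • x) :: v

/-- The sequence `ω` with its first term removed. -/
def sh (ω : ℕ → X → B →* A) : ℕ → X → B →* A := fun k => ω (k + 1)

/-- The directed automorphism given by `b` along the ray `o o o ⋯`: it fixes the first letter `x`;
below `x ≠ o` it acts as the rooted automorphism `ω 0 x b`, and below `o` it acts as the directed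
automorphism given by `b` and the shifted sequence. -/
def dirFun (o : X) : (ℕ → X → B →* A) → B → List X → List X
  | _, _, [] => []
  | ω, b, x :: v =>
      if x = o then o :: dirFun o (sh ω) b v else x :: rootFun (ω 0 x b) v

/-- The standard generating set of the spinal group of `(o, ω)`: all rooted automorphisms given by
elements of `A` and all directed automorphisms given by elements of `B`, except the identity. -/
def spinalGenerators (o : X) (ω : ℕ → X → B →* A) : Set (Equiv.Perm (List X)) :=
  {g | g ≠ 1 ∧ ((∃ α : A, ∀ v, g v = rootFun α v) ∨ (∃ b : B, ∀ v, g v = dirFun o ω b v))}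

end Pool.Agent.Helper90.Spinal
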