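import Pool.Agent.Helper90.SpinalDefs

namespace Pool.Agent.Helper90.Spinal

section basic

set_option linter.unusedSectionVars false

variable {X A B : Type*} [DecidableEq X] [Group A] [Group B] [MulAction A X]

lemma rootFun_one (v : List X) : rootFun (1 : A) v = v := by
  cases v <;> simp [rootFun]

lemma rootFun_mul (α β : A) (v : List X) :
    rootFun (α * β) v = rootFun α (rootFun β v) := by
  cases v <;> simp [rootFun, mul_smul]

lemma dirFun_one (o : X) (ω : ℕ → X → B →* A) (v : List X) : dirFun o ω (1 : B) v = v := by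
  induction v generalizing ω with
  | nil => simp [dirFun]
  | cons x v ih =>
    by_cases h : x = o
    · simp [dirFun, h, ih]
    · simp [dirFun, h, rootFun_one]

lemma dirFun_mul (o : X) (ω : ℕ → X → B →* A) (b c : B) (v : List X) :
    dirFun o ω (b * c) v = dirFun o ω b (dirFun o ω c v) := by
  induction v generalizing ω with
  | nil => simp [dirFun]
  | cons x v ih =>
    by_cases h : x = o
    · simp [dirFun, h, ih]
    · simp [dirFun, h, rootFun_mul]

/-- rooted automorphisms as permutations -/
def rootP : A →* Equiv.Perm (List X) where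
  toFun α := ⟨rootFun α, rootFun α⁻¹, fun v => by rw [← rootFun_mul]; simp [rootFun_one],
    fun v => by rw [← rootFun_mul]; simp [rootFun_one]⟩
  map_one' := by ext v : 1; simp [rootFun_one]
  map_mul' α β := by ext v : 1; simp [rootFun_mul]

/-- directed automorphisms as permutations -/
def dirP (o : X) (ω : ℕ → X → B →* A) : B →* Equiv.Perm (List X) where
  toFun b := ⟨dirFun o ω b, dirFun o ω b⁻¹, fun v => by rw [← dirFun_mul]; simp [dirFun_one],
    fun v => by rw [← dirFun_mul]; simp [dirFun_one]⟩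
  map_one' := by ext v : 1; simp [dirFun_one]
  map_mul' b c := by ext v : 1; simp [dirFun_mul]

@[simp] lemma rootP_apply (α : A) (v : List X) : (rootP α : Equiv.Perm (List X)) v = rootFun α v :=
  rfl

@[simp] lemma dirP_apply (o : X) (ω : ℕ → X → B →* A) (b : B) (v : List X) :
    dirP o ω b v = dirFun o ω b v := rfl

/-- a letter is an element of `A` or of `B` -/
def letP (o : X) (ω : ℕ → X → B →* A) : A ⊕ B → Equiv.Perm (List X) :=
  Sum.elim (fun a => rootP a) (fun b => dirP o ω b)

@[simp] lemma letP_inl (o : X) (ω : ℕ → X → B →* A) (a : A) :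
    letP o ω (Sum.inl a : A ⊕ B) = rootP a := rfl
@[simp] lemma letP_inr (o : X) (ω : ℕ → X → B →* A) (b : B) :
    letP o ω (Sum.inr b : A ⊕ B) = dirP o ω b := rfl

/-- value of a list of letters -/
def evL (o : X) (ω : ℕ → X → B →* A) (L : List (A ⊕ B)) : Equiv.Perm (List X) :=
  (L.map (letP o ω)).prod

/-- value of one event -/
def ev (o : X) (ω : ℕ → X → B →* A) (e : A × B) : Equiv.Perm (List X) :=
  rootP e.1⁻¹ * dirP o ω e.2 * rootP e.1

/-- value of a list of events -/
def evE (o : X) (ω : ℕ → X → B →* A) (V : List (A × B)) : Equiv.Perm (List X) :=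
  (V.map (ev o ω)).prod

@[simp] lemma evL_nil (o : X) (ω : ℕ → X → B →* A) : evL o ω ([] : List (A ⊕ B)) = 1 := rfl
@[simp] lemma evL_cons (o : X) (ω : ℕ → X → B →* A) (a : A ⊕ B) (L : List (A ⊕ B)) :
    evL o ω (a :: L) = letP o ω a * evL o ω L := by simp [evL]
lemma evL_append (o : X) (ω : ℕ → X → B →* A) (L M : List (A ⊕ B)) :
    evL o ω (L ++ M) = evL o ω L * evL o ω M := by simp [evL]
@[simp] lemma evE_nil (o : X) (ω : ℕ → X → B →* A) : evE o ω ([] : List (A × B)) = 1 := rfl
@[simp] lemma evE_cons (o : X) (ω : ℕ → X → B →* A) (e : A × B) (V : List (A × B)) :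
    evE o ω (e :: V) = ev o ω e * evE o ω V := by simp [evE]
lemma evE_append (o : X) (ω : ℕ → X → B →* A) (V W : List (A × B)) :
    evE o ω (V ++ W) = evE o ω V * evE o ω W := by simp [evE]

/-- the letter of the section at `x` produced by the event `e` -/
def secLet (o : X) (ω : ℕ → X → B →* A) (x : X) (e : A × B) : A ⊕ B :=
  if e.1 • x = o then Sum.inr e.2 else Sum.inl (ω 0 (e.1 • x) e.2)

/-- the letters of the section at `x` of a list of events -/
def secList (o : X) (ω : ℕ → X → B →* A) (V : List (A × B)) (x : X) : List (A ⊕ B) :=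
  V.map (secLet o ω x)

lemma ev_apply (o : X) (ω : ℕ → X → B →* A) (e : A × B) (v : List X) :
    ev o ω e v = rootFun e.1⁻¹ (dirFun o ω e.2 (rootFun e.1 v)) := rfl

lemma ev_apply_cons (o : X) (ω : ℕ → X → B →* A) (e : A × B) (x : X) (v : List X) :
    ev o ω e (x :: v) = x :: letP o (sh ω) (secLet o ω x e) v := by
  rw [ev_apply]
  by_cases h : e.1 • x = o
  · simp only [secLet, rootFun, dirFun, h, if_true, letP_inr, dirP_apply]
    rw [← h, inv_smul_smul]
  · simp only [secLet, rootFun, dirFun, h, if_false, letP_inl, rootP_apply, inv_smul_smul]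

lemma ev_apply_nil (o : X) (ω : ℕ → X → B →* A) (e : A × B) :
    ev o ω e [] = [] := by
  simp [ev_apply, rootFun, dirFun]

lemma evE_apply_cons (o : X) (ω : ℕ → X → B →* A) (V : List (A × B)) (x : X) (v : List X) :
    evE o ω V (x :: v) = x :: evL o (sh ω) (secList o ω V x) v := by
  induction V with
  | nil => simp [secList]
  | cons e V ih =>
    simp only [evE_cons, Equiv.Perm.mul_apply, ih, secList, List.map_cons, evL_cons]
    rw [ev_apply_cons]

lemma evE_apply_nil (o : X) (ω : ℕ → X → B →* A) (V : List (A × B)) :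
    evE o ω V [] = [] := by
  induction V with
  | nil => simp
  | cons e V ih => simp [ih, ev_apply_nil]

/-- change of the base configuration -/
def tw (α : A) (V : List (A × B)) : List (A × B) := V.map (fun e => (e.1 * α, e.2))

@[simp] lemma length_tw (α : A) (V : List (A × B)) : (tw α V).length = V.length := by simp [tw]

lemma root_mul_ev (o : X) (ω : ℕ → X → B →* A) (α : A) (e : A × B) :
    rootP α * ev o ω e = ev o ω (e.1 * α⁻¹, e.2) * rootP α := by
  simp only [ev, mul_inv_rev, inv_inv, map_mul, map_inv]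
  group

lemma root_mul_evE (o : X) (ω : ℕ → X → B →* A) (α : A) (V : List (A × B)) :
    rootP α * evE o ω V = evE o ω (tw α⁻¹ V) * rootP α := by
  induction V with
  | nil => simp [tw]
  | cons e V ih =>
    simp only [evE_cons, tw, List.map_cons]
    rw [← mul_assoc, root_mul_ev, mul_assoc, ih]
    simp [tw, mul_assoc]

/-- every expression of `g` needs at least `n` events -/
def NuGe (A : Type*) {X B : Type*} [DecidableEq X] [Group A] [Group B] [MulAction A X]
    (o : X) (ω : ℕ → X → B →* A) (g : Equiv.Perm (List X)) (n : ℕ) : Prop :=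
  ∀ (V : List (A × B)) (α : A), g = evE o ω V * rootP α → n ≤ V.length

lemma NuGe.mul_root {o : X} {ω : ℕ → X → B →* A} {g : Equiv.Perm (List X)} {n : ℕ}
    (h : NuGe A o ω g n) (α : A) : NuGe A o ω (g * rootP α) n := by
  intro V α' hV
  apply h V (α' * α⁻¹)
  rw [map_mul, ← mul_assoc, ← hV]
  simp

lemma NuGe.root_mul {o : X} {ω : ℕ → X → B →* A} {g : Equiv.Perm (List X)} {n : ℕ}
    (h : NuGe A o ω g n) (α : A) : NuGe A o ω (rootP α * g) n := by
  intro V α' hV
  have := h (tw α V) (α⁻¹ * α')
  rw [length_tw] at this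
  apply this
  have h2 : g = rootP α⁻¹ * (evE o ω V * rootP α') := by rw [← hV]; simp
  rw [h2, ← mul_assoc, root_mul_evE, inv_inv, map_mul, mul_assoc]

lemma NuGe.mono {o : X} {ω : ℕ → X → B →* A} {g : Equiv.Perm (List X)} {n m : ℕ}
    (h : NuGe A o ω g n) (hm : m ≤ n) : NuGe A o ω g m :=
  fun V α hV => hm.trans (h V α hV)

/-- counting `B`-letters -/
def isB (l : A ⊕ B) : Bool := l.isRight

open Classical in
/-- counting nontrivial `A`-letters -/
noncomputable def isA (l : A ⊕ B) : Bool := decide (∃ a : A, a ≠ 1 ∧ l = Sum.inl a)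

lemma exists_nb (o : X) (ω : ℕ → X → B →* A) (L : List (A ⊕ B)) :
    ∃ (V : List (A × B)) (α : A), evL o ω L = evE o ω V * rootP α ∧
      V.length = L.countP isB := by
  induction L with
  | nil => exact ⟨[], 1, by simp, by simp⟩
  | cons l L ih =>
    obtain ⟨V, α, hV, hl⟩ := ih
    rcases l with a | b
    · refine ⟨tw a⁻¹ V, a * α, ?_, ?_⟩
      · rw [evL_cons, letP_inl, hV, ← mul_assoc, root_mul_evE, map_mul, mul_assoc]
      · simp [hl, isB]
    · refine ⟨(1, b) :: V, α, ?_, ?_⟩
      · rw [evL_cons, letP_inr, hV, evE_cons, ← mul_assoc]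
        simp [ev]
      · simp [hl, isB]

lemma exists_na (o : X) (ω : ℕ → X → B →* A) (L : List (A ⊕ B)) :
    ∃ (b : B) (V : List (A × B)) (α : A), evL o ω L = dirP o ω b * (evE o ω V * rootP α) ∧
      V.length ≤ L.countP isA := by
  induction L with
  | nil => exact ⟨1, [], 1, by simp, by simp⟩
  | cons l L ih =>
    obtain ⟨b, V, α, hV, hl⟩ := ih
    rcases l with a | b'
    · by_cases ha : a = 1
      · subst ha
        refine ⟨b, V, α, ?_, ?_⟩
        · rw [evL_cons, letP_inl, hV]; simp
        · refine hl.trans ?_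
          rw [List.countP_cons]; omega
      · refine ⟨1, (a⁻¹, b) :: tw a⁻¹ V, a * α, ?_, ?_⟩
        · rw [evL_cons, letP_inl, hV, map_one, one_mul, evE_cons, map_mul,
            mul_assoc (ev o ω _), ← mul_assoc (evE o ω _), ← root_mul_evE]
          simp [ev, mul_assoc]
        · have : isA (Sum.inl a : A ⊕ B) = true := by
            simp [isA, ha]
          simp [this, hl]
    · refine ⟨b' * b, V, α, ?_, ?_⟩
      · rw [evL_cons, letP_inr, hV, map_mul, mul_assoc]
      · refine hl.trans ?_
        rw [List.countP_cons]; omega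

lemma NuGe.le_nb {o : X} {ω : ℕ → X → B →* A} {L : List (A ⊕ B)} {n : ℕ}
    (h : NuGe A o ω (evL o ω L) n) : n ≤ L.countP isB := by
  obtain ⟨V, α, hV, hl⟩ := exists_nb o ω L
  rw [← hl]; exact h V α hV

lemma NuGe.le_na {o : X} {ω : ℕ → X → B →* A} {L : List (A ⊕ B)} {n : ℕ}
    (h : NuGe A o ω (evL o ω L) n) : n ≤ L.countP isA + 1 := by
  obtain ⟨b, V, α, hV, hl⟩ := exists_na o ω L
  have := h ((1, b) :: V) α (by rw [hV, evE_cons, mul_assoc (ev o ω _)]; simp [ev])
  simp at this
  omega

end basic

end Pool.Agent.Helper90.Spinal
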