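import Pool.Agent.Helper90.SpinalWeave

namespace Pool.Agent.Helper90.Spinal

set_option linter.unusedSectionVars false

section fg

variable {X A B : Type*} [DecidableEq X] [Group A] [Group B] [MulAction A X]

/-- `A` is a group of order three (in the form used below) -/
def Three (A : Type*) [Group A] : Prop :=
  ∀ a : A, a ≠ 1 → a * a * a = 1 ∧ ∀ x : A, x = 1 ∨ x = a ∨ x = a * a

/-- every shift is in the rigid case -/
def AllU (o : X) (ω : ℕ → X → B →* A) : Prop := ∀ k, ∃ s, Uni o (sh^[k] ω) s

lemma AllU.sh {o : X} {ω : ℕ → X → B →* A} (h : AllU o ω) : AllU o (sh ω) :=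
  fun k => h (k + 1)

lemma countP_three {α : Type*} (p q r : α → Bool) (V : List α)
    (h1 : ∀ e, ¬ (p e = true ∧ q e = true)) (h2 : ∀ e, ¬ (p e = true ∧ r e = true))
    (h4 : ∀ e, ¬ (q e = true ∧ r e = true)) :
    V.countP p + V.countP q + V.countP r ≤ V.length := by
  induction V with
  | nil => simp
  | cons e V ih =>
    have g1 := h1 e
    have g2 := h2 e
    have g4 := h4 e
    simp only [List.countP_cons, List.length_cons]
    cases hp : p e <;> cases hq : q e <;> cases hr : r e <;>
      simp_all <;> omega

lemma NuGe.sub {o : X} {ω : ℕ → X → B →* A} {g h : Equiv.Perm (List X)} {n k : ℕ}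
    (hn : NuGe A o ω (g * h) n) (V : List (A × B)) (α : A) (hh : h = evE o ω V * rootP α)
    (hV : V.length = k) : NuGe A o ω g (n - k) := by
  intro W β hW
  have := hn (W ++ tw β⁻¹ V) (β * α) (by
    rw [hW, hh, evE_append, map_mul, mul_assoc (evE o ω W), ← mul_assoc (rootP β),
      root_mul_evE]
    simp [mul_assoc])
  simp [hV] at this
  omega

lemma exists_pow (o : X) (ω : ℕ → X → B →* A) (b : B) (a : A) (k : ℕ) :
    ∃ (V : List (A × B)) (α : A), (dirP o ω b * rootP a) ^ k = evE o ω V * rootP α ∧
      V.length = k := by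
  induction k with
  | zero => exact ⟨[], 1, by simp, rfl⟩
  | succ k ih =>
    obtain ⟨V, α, hV, hl⟩ := ih
    refine ⟨(1, b) :: tw a⁻¹ V, a * α, ?_, by simp [hl]⟩
    rw [pow_succ', hV, mul_assoc, ← mul_assoc (rootP a), root_mul_evE, evE_cons, map_mul]
    simp [ev, mul_assoc]

variable [FaithfulSMul A X] [MulAction.IsPretransitive A X]

/-- three events whose product is the cube -/
def cube (b : B) (a : A) : List (A × B) := [(1, b), (a⁻¹, b), (a⁻¹ * a⁻¹, b)]

lemma evE_cube {o : X} {ω : ℕ → X → B →* A} (b : B) {a : A} (h3 : a * a * a = 1) :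
    evE o ω (cube b a) = (dirP o ω b * rootP a) ^ 3 := by
  have h4 : (rootP a * rootP a * rootP a : Equiv.Perm (List X)) = 1 := by
    rw [← map_mul, ← map_mul, h3, map_one]
  have h5 : (rootP a⁻¹ * rootP a⁻¹ : Equiv.Perm (List X)) = rootP a := by
    rw [← map_mul]
    congr 1
    have : a⁻¹ * a⁻¹ = a⁻¹ * a⁻¹ * (a * a * a) := by rw [h3, mul_one]
    rw [this]; group
  simp only [cube, evE_cons, evE_nil, mul_one, ev, map_one, inv_one, one_mul, inv_inv,
    mul_inv_rev, map_mul, pow_succ, pow_zero]
  rw [h5]
  simp only [mul_assoc]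
  rw [map_inv, inv_mul_cancel_left]

/-- repeated list of events -/
def rep (k : ℕ) (V : List (A × B)) : List (A × B) := (List.replicate k V).flatten

lemma evE_rep {o : X} {ω : ℕ → X → B →* A} (k : ℕ) (V : List (A × B)) :
    evE o ω (rep k V) = evE o ω V ^ k := by
  induction k with
  | zero => simp [rep]
  | succ k ih =>
    rw [rep, List.replicate_succ, List.flatten_cons, evE_append, pow_succ', ← ih, rep]

lemma evL_sec_rep {o : X} {ω : ℕ → X → B →* A} (k : ℕ) (V : List (A × B)) (x : X) :
    evL o (sh ω) (secList o ω (rep k V) x) = evL o (sh ω) (secList o ω V x) ^ k := by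
  induction k with
  | zero => simp [rep, secList]
  | succ k ih =>
    simp only [secList, rep] at ih
    simp only [secList, rep, List.replicate_succ, List.flatten_cons, List.map_append,
      evL_append, pow_succ', ih]

lemma three_facts {o : X} {ω : ℕ → X → B →* A} (h3 : Three A) {s : A} (hu : Uni o ω s) :
    s ≠ 1 ∧ s * s * s = 1 ∧ (s * s) • o ≠ o ∧ (s * s) • o ≠ s • o ∧ s * s ≠ 1 ∧
    (∀ x : X, x = o ∨ x = s • o ∨ x = (s * s) • o) := by
  have hs : s ≠ 1 := by
    rintro rfl
    exact hu.ne (one_smul _ _)
  obtain ⟨h1, h2⟩ := h3 s hs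
  have hss : s * s ≠ 1 := by
    intro h
    rw [h, one_mul] at h1
    exact hs h1
  have hfree : ∀ g : A, g • o = o → g = 1 := fun g hg => hu.free g 1 (by rw [hg, one_smul])
  refine ⟨hs, h1, fun h => hss (hfree _ h), fun h => hs (mul_eq_left.1 (hu.free _ _ h)), hss, ?_⟩
  intro x
  obtain ⟨g, rfl⟩ := MulAction.exists_smul_eq A o x
  rcases h2 g with h | h | h
  · left; rw [h, one_smul]
  · right; left; rw [h]
  · right; right; rw [h]

lemma sec_cube {o : X} {ω : ℕ → X → B →* A} (h3 : Three A) {s : A} (hu : Uni o ω s) (b : B)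
    {a : A} (ha : a ≠ 1) (x : X) :
    evL o (sh ω) (secList o ω (cube b a) x) =
      dirP o (sh ω) b * rootP (ω 0 (s • o) b) ∨
    evL o (sh ω) (secList o ω (cube b a) x) =
      rootP (ω 0 (s • o) b) * dirP o (sh ω) b := by
  obtain ⟨hs, h1, h2, h4, h5, h6⟩ := three_facts h3 hu
  have e1 : s • s • o = (s * s) • o := (mul_smul _ _ _).symm
  have e2 : (s * s) • s • o = o := by rw [← mul_smul, h1, one_smul]
  have e3 : s • (s * s) • o = o := by rw [← mul_smul, ← mul_assoc, h1, one_smul]
  have e4 : (s * s) • (s * s) • o = s • o := by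
    rw [← mul_smul]
    congr 1
    calc s * s * (s * s) = s * s * s * s := by group
      _ = s := by rw [h1, one_mul]
  have hne := hu.ne
  have ht : ∀ b, ω 0 ((s * s) • o) b = 1 := hu.triv _ h2 h4
  have hinv : s⁻¹ = s * s := by
    rw [inv_eq_iff_mul_eq_one, ← mul_assoc, h1]
  have hinv2 : (s * s)⁻¹ = s := by rw [← hinv, inv_inv]
  have h7 : s * s * (s * s) = s := by
    calc s * s * (s * s) = s * s * s * s := by group
      _ = s := by rw [h1, one_mul]
  rcases (h3 s hs).2 a with h | h | h
  · exact absurd h ha
  · rw [h]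
    simp only [cube, hinv, h7]
    rcases h6 x with hx | hx | hx
    · left
      rw [hx]
      simp [secList, secLet, h2, hne, ht]
    · right
      rw [hx]
      simp [secList, secLet, e1, e2, h2, hne, ht]
    · right
      rw [hx]
      simp [secList, secLet, e3, e4, h2, hne, ht]
  · rw [h]
    simp only [cube, hinv2]
    rcases h6 x with hx | hx | hx
    · left
      rw [hx]
      simp [secList, secLet, h2, hne, ht]
    · right
      rw [hx]
      simp [secList, secLet, e1, e2, h2, hne, ht]
    · left
      rw [hx]
      simp [secList, secLet, e3, e4, h2, hne, ht]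

lemma nuGe_comm {o : X} {ω : ℕ → X → B →* A} {b : B} {a : A} {n : ℕ}
    (h : NuGe A o ω ((dirP o ω b * rootP a) ^ n) n) :
    NuGe A o ω ((rootP a * dirP o ω b) ^ n) n := by
  have e : (rootP a * dirP o ω b) ^ n =
      rootP a * (dirP o ω b * rootP a) ^ n * rootP a⁻¹ := by
    induction n with
    | zero => simp
    | succ n _ =>
      rw [pow_succ (dirP o ω b * rootP a)]
      have : ∀ k, rootP a * (dirP o ω b * rootP a) ^ k = (rootP a * dirP o ω b) ^ k * rootP a := by
        intro k
        induction k with
        | zero => simp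
        | succ k ih =>
          rw [pow_succ, ← mul_assoc, ih, pow_succ]
          simp only [mul_assoc]
      rw [← mul_assoc, this, pow_succ]
      simp [mul_assoc]
  rw [e]
  exact (h.root_mul _).mul_root _

lemma nu_pow_three (h3 : Three A) (j : ℕ) : ∀ {o : X} {ω : ℕ → X → B →* A}, Good o ω →
    AllU o ω → ∀ {b : B} {a : A}, b ≠ 1 → a ≠ 1 →
    NuGe A o ω ((dirP o ω b * rootP a) ^ (3 ^ j)) (3 ^ j) := by
  induction j with
  | zero =>
    intro o ω h _ b a hb _
    simp only [pow_zero, pow_one]
    exact (nuGe_dirP h hb).mul_root _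
  | succ j ih =>
    intro o ω h hU b a hb ha
    obtain ⟨s, hu⟩ := hU 0
    simp only [Function.iterate_zero, id_eq] at hu
    obtain ⟨hs, h1, h2, h4, h5, h6⟩ := three_facts h3 hu
    have hφ : ω 0 (s • o) b ≠ 1 := by
      intro h7
      exact hb (hu.inj (by rw [h7, map_one]))
    have key := ih h.sh hU.sh hb hφ
    have key' := nuGe_comm key
    have e : (dirP o ω b * rootP a) ^ (3 ^ (j + 1)) = evE o ω (rep (3 ^ j) (cube b a)) := by
      rw [evE_rep, evE_cube b (h3 a ha).1, ← pow_mul, pow_succ, mul_comm]
    rw [e, nuGe_evE_iff]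
    intro W hW
    have hx : ∀ x : X, 3 ^ j ≤ W.countP (atO o x) := by
      intro x
      apply count_O hW
      rw [evL_sec_rep]
      rcases sec_cube h3 hu b ha x with h7 | h7
      · rw [h7]; exact key
      · rw [h7]; exact key'
    have c1 := hx o
    have c2 := hx (s • o)
    have c3 := hx ((s * s) • o)
    have dis : ∀ x y : X, x ≠ y → ∀ e : A × B, ¬ (atO o x e = true ∧ atO o y e = true) := by
      intro x y hxy e ⟨g1, g2⟩
      simp only [atO, decide_eq_true_eq] at g1 g2
      exact hxy (smul_left_cancel _ (g1.trans g2.symm))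
    have c4 := countP_three (atO o o) (atO o (s • o)) (atO o ((s * s) • o)) W
      (dis _ _ hu.ne.symm) (dis _ _ h2.symm) (dis _ _ h4.symm)
    rw [pow_succ]
    omega

lemma nu_pow (h3 : Three A) {o : X} {ω : ℕ → X → B →* A} (h : Good o ω)
    (hU : AllU o ω) {b : B} {a : A} (hb : b ≠ 1) (ha : a ≠ 1) (n : ℕ) :
    NuGe A o ω ((dirP o ω b * rootP a) ^ n) n := by
  have h1 := nu_pow_three h3 n h hU hb ha
  have h2 : n < 3 ^ n := Nat.lt_pow_self (by norm_num)
  obtain ⟨V, α, hV, hl⟩ := exists_pow o ω b a (3 ^ n - n)
  have e : (dirP o ω b * rootP a) ^ (3 ^ n) =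
      (dirP o ω b * rootP a) ^ n * (dirP o ω b * rootP a) ^ (3 ^ n - n) := by
    rw [← pow_add]; congr 1; omega
  rw [e] at h1
  have h4 := h1.sub V α hV hl
  exact h4.mono (by omega)

/-- the lists of events used in the rigid case of order three -/
def fgList (p q r : A × B) : List Bool → List (A × B)
  | [] => [p]
  | false :: c => p :: q :: r :: fgList p q r c
  | true :: c => p :: q :: p :: q :: p :: q :: p :: q :: r :: fgList p q r c

/-- weights of bits -/
def wt : List Bool → ℕ
  | [] => 0
  | false :: c => wt c + 1
  | true :: c => wt c + 4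

lemma length_fgList (p q r : A × B) (c : List Bool) :
    (fgList p q r c).length = 2 * wt c + c.length + 1 := by
  induction c with
  | nil => simp [fgList, wt]
  | cons b c ih => cases b <;> simp [fgList, wt, ih] <;> ring

lemma wt_le (c : List Bool) : wt c ≤ 4 * c.length := by
  induction c with
  | nil => simp [wt]
  | cons b c ih => cases b <;> simp [wt] <;> omega

lemma fgList_inj {p q r : A × B} (hpr : p ≠ r) (c c' : List Bool) (hc : c.length = c'.length)
    (h : fgList p q r c = fgList p q r c') : c = c' := by
  induction c generalizing c' with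
  | nil => exact (List.length_eq_zero_iff.1 hc.symm).symm
  | cons b c ih =>
    cases c' with
    | nil => simp at hc
    | cons b' c' =>
      have hc2 : c.length = c'.length := by simpa using hc
      cases b <;> cases b' <;> simp only [fgList, List.cons.injEq, true_and] at h
      · rw [ih c' hc2 h]
      · exact absurd h.1.symm hpr
      · exact absurd h.1 hpr
      · rw [ih c' hc2 h]

lemma fgList_head (p q r : A × B) (c : List Bool) : ∀ e ∈ (fgList p q r c).head?, e = p := by
  intro e he
  cases c with
  | nil => simp [fgList] at he; exact he.symm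
  | cons b c => cases b <;> simp [fgList] at he <;> exact he.symm

lemma fgList_chain {p q r : A × B} (h1 : p.1 ≠ q.1) (h2 : q.1 ≠ r.1) (h3 : p.1 ≠ r.1)
    (c : List Bool) : (fgList p q r c).IsChain (fun e f => e.1 ≠ f.1) := by
  induction c with
  | nil => simp [fgList]
  | cons b c ih =>
    have hh := fgList_head p q r c
    have h4 : (r :: fgList p q r c).IsChain (fun e f => e.1 ≠ f.1) := by
      rw [List.isChain_cons]
      exact ⟨fun f hf => by rw [hh f hf]; exact h3.symm, ih⟩
    cases b
    · simp only [fgList]
      rw [List.isChain_cons_cons, List.isChain_cons_cons]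
      exact ⟨h1, h2, h4⟩
    · simp only [fgList]
      rw [List.isChain_cons_cons, List.isChain_cons_cons, List.isChain_cons_cons,
        List.isChain_cons_cons, List.isChain_cons_cons, List.isChain_cons_cons,
        List.isChain_cons_cons, List.isChain_cons_cons]
      exact ⟨h1, h1.symm, h1, h1.symm, h1, h1.symm, h1, h2, h4⟩

lemma fgList_mem {p q r : A × B} (c : List Bool) :
    ∀ e ∈ fgList p q r c, e = p ∨ e = q ∨ e = r := by
  induction c with
  | nil => intro e he; simp [fgList] at he; left; exact he
  | cons b c ih =>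
    intro e he
    cases b
    · simp only [fgList, List.mem_cons] at he
      rcases he with h | h | h | h
      · left; exact h
      · right; left; exact h
      · right; right; exact h
      · exact ih e h
    · simp only [fgList, List.mem_cons] at he
      rcases he with h | h | h | h | h | h | h | h | h | h
      · left; exact h
      · right; left; exact h
      · left; exact h
      · right; left; exact h
      · left; exact h
      · right; left; exact h
      · left; exact h
      · right; left; exact h
      · right; right; exact h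
      · exact ih e h

lemma expo_fg (h3 : Three A) {o : X} {ω : ℕ → X → B →* A} (h : Good o ω)
    (hU : AllU o ω) : Expo o ω := by
  obtain ⟨b, hb⟩ := exists_b h
  obtain ⟨s, hu⟩ := hU 0
  simp only [Function.iterate_zero, id_eq] at hu
  obtain ⟨hs, h1, h2, h4, h5, h6⟩ := three_facts h3 hu
  have hφ : ω 0 (s • o) b ≠ 1 := by
    intro h7
    exact hb (hu.inj (by rw [h7, map_one]))
  have hne := hu.ne
  have ht : ω 0 ((s * s) • o) b = 1 := hu.triv _ h2 h4 b
  have e1 : s • s • o = (s * s) • o := (mul_smul _ _ _).symm
  have e2 : (s * s) • s • o = o := by rw [← mul_smul, h1, one_smul]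
  set D : Equiv.Perm (List X) := dirP o (sh ω) b with hD
  set R : Equiv.Perm (List X) := rootP (ω 0 (s • o) b) with hR
  have hR3 : R * R * R = 1 := by
    rw [hR, ← map_mul, ← map_mul, (h3 _ hφ).1, map_one]
  have secO : ∀ c, evL o (sh ω) (secList o ω (fgList (1, b) (s, b) (s * s, b) c) o) =
      (D * R) ^ (wt c) * D := by
    intro c
    induction c with
    | nil => simp [fgList, wt, secList, secLet, hD]
    | cons x c ih =>
      simp only [secList] at ih
      cases x
      · simp only [fgList, wt, secList, List.map_cons, evL_cons, ih]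
        simp only [secLet, one_smul, if_true, if_neg hne, if_neg h2, letP_inl, letP_inr, ht,
          map_one, one_mul, ← hD, ← hR, pow_succ', mul_assoc]
      · simp only [fgList, wt, secList, List.map_cons, evL_cons, ih]
        simp only [secLet, one_smul, if_true, if_neg hne, if_neg h2, letP_inl, letP_inr, ht,
          map_one, one_mul, ← hD, ← hR, pow_succ', mul_assoc]
  have secK : ∀ c, evL o (sh ω) (secList o ω (fgList (1, b) (s, b) (s * s, b) c) (s • o)) =
      (R * D) ^ c.length * R := by
    intro c
    induction c with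
    | nil => simp [fgList, secList, secLet, hR, hne]
    | cons x c ih =>
      simp only [secList] at ih
      cases x
      · simp only [fgList, secList, List.map_cons, evL_cons, ih]
        simp only [secLet, one_smul, e1, e2, if_true, if_neg hne, if_neg h2, letP_inl, letP_inr,
          ht, map_one, one_mul, ← hD, ← hR, pow_succ', mul_assoc, List.length_cons]
      · simp only [fgList, secList, List.map_cons, evL_cons, ih]
        simp only [secLet, one_smul, e1, e2, if_true, if_neg hne, if_neg h2, letP_inl, letP_inr,
          ht, map_one, one_mul, ← hD, ← hR, pow_succ', List.length_cons]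
        calc R * (R * (R * (R * (D * ((R * D) ^ c.length * R))))) =
            (R * R * R) * (R * D * (R * D) ^ c.length * R) := by simp only [mul_assoc]
          _ = _ := by rw [hR3, one_mul]
  have hfree : ∀ g : A, g • o = o → g = 1 := fun g hg => hu.free g 1 (by rw [hg, one_smul])
  have hmin : ∀ c, IsMin o ω (fgList (1, b) (s, b) (s * s, b) c) := by
    intro c W hW
    have n1 : NuGe A o (sh ω) (evL o (sh ω)
        (secList o ω (fgList (1, b) (s, b) (s * s, b) c) o)) (wt c + 1) := by
      rw [secO]
      have := (nu_pow h3 h.sh hU.sh hb hφ (wt c + 1)).mul_root (ω 0 (s • o) b)⁻¹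
      rw [← hD, ← hR, pow_succ] at this
      have e : (D * R) ^ wt c * (D * R) * rootP (ω 0 (s • o) b)⁻¹ = (D * R) ^ wt c * D := by
        rw [map_inv, ← hR]; group
      rw [e] at this
      exact this
    have n2 : NuGe A o (sh ω) (evL o (sh ω)
        (secList o ω (fgList (1, b) (s, b) (s * s, b) c) (s • o))) c.length := by
      rw [secK]
      exact (nuGe_comm (nu_pow h3 h.sh hU.sh hb hφ c.length)).mul_root _
    have c1 := count_O hW n1
    have c2 := count_K hW n1
    have c3 := count_O hW n2
    have kK : ∀ (x : X) (e : A × B), atK o ω x e = true → e.1 • x = s • o := by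
      intro x e he
      simp only [atK, decide_eq_true_eq] at he
      by_contra h1
      exact he.2 (hu.triv _ he.1 h1 _)
    have kO : ∀ (x : X) (e : A × B), atO o x e = true → e.1 • x = o := by
      intro x e he
      simpa [atO] using he
    have c4 := countP_three (atO o o) (atK o ω o) (atO o (s • o)) W
      (fun e => atO_atK_disj e)
      (by
        intro e ⟨g1, g2⟩
        have g3 := hfree _ (kO _ _ g1)
        have g4 := kO _ _ g2
        rw [g3, one_smul] at g4
        exact hne g4)
      (by
        intro e ⟨g1, g2⟩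
        have g3 := hu.free _ _ (kK _ _ g1)
        have g4 := kO _ _ g2
        rw [g3, e1] at g4
        exact h2 g4)
    rw [length_fgList]
    omega
  refine ⟨9, fgList (1, b) (s, b) (s * s, b), fun c => ⟨⟨?_, ?_, ?_, hmin c⟩, ?_⟩, ?_⟩
  · intro e he
    rcases fgList_mem c e he with h7 | h7 | h7 <;> rw [h7] <;> exact hb
  · apply fgList_chain
    · exact hs.symm
    · intro h7
      exact hs (mul_eq_left.1 h7.symm)
    · exact h5.symm
  · intro e he
    rw [fgList_head _ _ _ _ e he]
  · rw [length_fgList]
    have := wt_le c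
    omega
  · intro c c' hc hcc
    refine fgList_inj ?_ c c' hc hcc
    intro h7
    exact h5 (Prod.ext_iff.1 h7).1.symm

end fg

section assemble

variable {X A B : Type*} [DecidableEq X] [Group A] [Group B] [MulAction A X]
  [FaithfulSMul A X] [MulAction.IsPretransitive A X]

lemma good_iter {o : X} {ω : ℕ → X → B →* A} (h : Good o ω) (k : ℕ) : Good o (sh^[k] ω) := by
  induction k generalizing ω with
  | zero => exact h
  | succ k ih => exact ih h.sh

lemma Expo.iter {o : X} (k : ℕ) : ∀ {ω : ℕ → X → B →* A}, Good o ω →
    Expo o (sh^[k] ω) → Expo o ω := by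
  induction k with
  | zero => intro ω _ h; exact h
  | succ k ih =>
    intro ω h hE
    obtain ⟨pk, hpk⟩ := exists_pick h
    exact Expo.up hpk (ih h.sh hE)

theorem expo_all {o : X} {ω : ℕ → X → B →* A} (h : Good o ω)
    (h4 : ¬ (Nat.card X = 2 ∧ Nat.card B = 2)) : Expo o ω := by
  by_cases h2 : Two o ω
  · exact expo_of_two h h2
  obtain ⟨s, hu⟩ := uni_of_not_two h h2
  have hs : s ≠ 1 := by
    rintro rfl
    exact hu.ne (one_smul _ _)
  by_cases h5 : ∃ t : A, t ≠ 1 ∧ t ≠ s ∧ s * t ≠ 1
  · obtain ⟨t, h6, h7, h8⟩ := h5
    exact expo_weave h hu h6 h7 h8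
  push Not at h5
  have hall : ∀ t : A, t = 1 ∨ t = s ∨ t = s⁻¹ := by
    intro t
    by_cases h6 : t = 1
    · left; exact h6
    by_cases h7 : t = s
    · right; left; exact h7
    right; right
    have := h5 t h6 h7
    exact (inv_eq_of_mul_eq_one_right this).symm
  have horb : Function.Bijective (fun g : A => g • o) :=
    ⟨fun g g' hg => hu.free g g' hg, fun x => MulAction.exists_smul_eq A o x⟩
  by_cases hss : s * s = 1
  · exfalso
    apply h4
    have hsinv : s⁻¹ = s := inv_eq_of_mul_eq_one_right hss
    have hcard : Nat.card A = 2 := by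
      rw [Nat.card_eq_two_iff]
      refine ⟨1, s, hs.symm, ?_⟩
      ext t
      simp only [Set.mem_insert_iff, Set.mem_singleton_iff, Set.mem_univ, iff_true]
      rcases hall t with h6 | h6 | h6
      · left; exact h6
      · right; exact h6
      · right; rw [h6, hsinv]
    refine ⟨?_, ?_⟩
    · rw [← hcard]
      exact (Nat.card_congr (Equiv.ofBijective _ horb)).symm
    · rw [← hcard]
      exact Nat.card_congr (Equiv.ofBijective (ω 0 (s • o)) ⟨hu.inj, hu.surj⟩)
  have hs3 : s * s * s = 1 := by
    rcases hall (s * s) with h6 | h6 | h6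
    · exact absurd h6 hss
    · exact absurd (mul_eq_left.1 h6) hs
    · rw [h6, inv_mul_cancel]
  have hinv : s⁻¹ = s * s := by
    rw [inv_eq_iff_mul_eq_one, ← mul_assoc, hs3]
  have hthree : Three A := by
    intro a ha
    rcases hall a with h6 | h6 | h6
    · exact absurd h6 ha
    · subst h6
      refine ⟨hs3, fun x => ?_⟩
      rcases hall x with h7 | h7 | h7
      · left; exact h7
      · right; left; exact h7
      · right; right; rw [h7, hinv]
    · subst h6
      refine ⟨?_, fun x => ?_⟩
      · rw [← mul_inv_rev, ← mul_inv_rev, ← mul_assoc, hs3, inv_one]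
      · rcases hall x with h7 | h7 | h7
        · left; exact h7
        · right; right
          rw [h7, ← mul_inv_rev, ← hinv, inv_inv]
        · right; left; exact h7
  by_cases hk : ∃ k, Two o (sh^[k] ω)
  · obtain ⟨k, hk⟩ := hk
    exact Expo.iter k h (expo_of_two (good_iter h k) hk)
  · push Not at hk
    exact expo_fg hthree h (fun k => uni_of_not_two (good_iter h k) (hk k))

end assemble

end Pool.Agent.Helper90.Spinal
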