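import Pool.Agent.Helper90.SpinalFG

namespace Pool.Agent.Helper90.Spinal

set_option linter.unusedSectionVars false

section growth

variable {X A B : Type*} [DecidableEq X] [Group A] [Group B] [MulAction A X]

/-- nontrivial letters -/
def NT : A ⊕ B → Prop := Sum.elim (fun a => a ≠ 1) (fun b => b ≠ 1)

lemma count_NT (L : List (A ⊕ B)) (h : ∀ l ∈ L, NT l) :
    L.length = L.countP isB + L.countP isA := by
  induction L with
  | nil => simp
  | cons l L ih =>
    have h1 := ih (fun l hl => h l (by simp [hl]))
    have h2 := h l (by simp)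
    rcases l with a | b
    · have ha : a ≠ 1 := h2
      have : isA (Sum.inl a : A ⊕ B) = true := by simp [isA, ha]
      simp [this, isB, h1]; ring
    · simp [isB, isA, h1]; ring

lemma mem_gens_iff [FaithfulSMul A X] {o : X} {ω : ℕ → X → B →* A} {g : Equiv.Perm (List X)} :
    g ∈ spinalGenerators o ω ↔ g ≠ 1 ∧ ∃ l : A ⊕ B, letP o ω l = g := by
  unfold spinalGenerators
  refine and_congr_right (fun _ => ?_)
  constructor
  · rintro (⟨α, hα⟩ | ⟨b, hb⟩)
    · exact ⟨Sum.inl α, by ext v : 1; simp [hα]⟩
    · exact ⟨Sum.inr b, by ext v : 1; simp [hb]⟩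
  · rintro ⟨l, rfl⟩
    rcases l with α | b
    · left; exact ⟨α, fun v => rfl⟩
    · right; exact ⟨b, fun v => rfl⟩

lemma exists_letters [FaithfulSMul A X] {o : X} {ω : ℕ → X → B →* A}
    (l : List (Equiv.Perm (List X))) (h : ∀ g ∈ l, g ∈ spinalGenerators o ω) :
    ∃ L : List (A ⊕ B), L.map (letP o ω) = l ∧ ∀ x ∈ L, NT x := by
  induction l with
  | nil => exact ⟨[], rfl, by simp⟩
  | cons g l ih =>
    obtain ⟨L, hL, hN⟩ := ih (fun g hg => h g (by simp [hg]))
    obtain ⟨h1, x, hx⟩ := mem_gens_iff.1 (h g (by simp))
    refine ⟨x :: L, by simp [hx, hL], ?_⟩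
    intro y hy
    simp only [List.mem_cons] at hy
    rcases hy with rfl | hy
    · rcases y with a | b
      · change a ≠ 1
        rintro rfl
        exact h1 (by rw [← hx]; simp)
      · change b ≠ 1
        rintro rfl
        exact h1 (by rw [← hx]; simp)
    · exact hN y hy

lemma wordL_NT {V : List (A × B)} (hne : ∀ e ∈ V, e.2 ≠ 1)
    (hc : V.IsChain (fun e f => e.1 ≠ f.1)) : ∀ x ∈ wordL V, NT x := by
  induction V with
  | nil => simp [wordL]
  | cons e V ih =>
    cases V with
    | nil =>
      intro x hx
      simp only [wordL, List.mem_singleton] at hx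
      rw [hx]
      exact hne e (by simp)
    | cons f V =>
      rw [List.isChain_cons_cons] at hc
      intro x hx
      simp only [wordL, List.mem_cons] at hx
      rcases hx with rfl | rfl | hx
      · exact hne e (by simp)
      · intro h
        exact hc.1 (mul_inv_eq_one.1 h)
      · exact ih (fun e he => hne e (List.mem_cons_of_mem _ he)) hc.2 x hx

lemma letP_ne_one [FaithfulSMul A X] {o : X} {ω : ℕ → X → B →* A} (h : Good o ω)
    {x : A ⊕ B} (hx : NT x) : letP o ω x ≠ 1 := by
  rcases x with a | b
  · intro h1
    apply hx
    exact rootP_inj (X := X) (by rw [map_one]; exact h1)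
  · exact dirP_ne_one h hx

/-- the geodesic word of a tight list of events -/
def wordP (o : X) (ω : ℕ → X → B →* A) (V : List (A × B)) : List (Equiv.Perm (List X)) :=
  (wordL V).map (letP o ω)

lemma wordP_geodesic [FaithfulSMul A X] {o : X} {ω : ℕ → X → B →* A} (h : Good o ω)
    {V : List (A × B)} (hV : Tight o ω V) :
    IsGeodesic (spinalGenerators o ω) (wordP o ω V) := by
  constructor
  · intro g hg
    simp only [wordP, List.mem_map] at hg
    obtain ⟨x, hx, rfl⟩ := hg
    exact mem_gens_iff.2 ⟨letP_ne_one h (wordL_NT hV.ne hV.chain x hx), x, rfl⟩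
  · intro l' hl' hprod
    obtain ⟨L, hL, hN⟩ := exists_letters l' hl'
    have h1 : evL o ω L = evL o ω (wordL V) := by
      rw [evL, hL, hprod]; rfl
    have h2 := nuGe_wordL hV.min
    rw [← h1] at h2
    have h3 := h2.le_nb
    have h4 := h2.le_na
    have h5 := count_NT L hN
    have h6 : l'.length = L.length := by rw [← hL]; simp
    rw [wordP, List.length_map, h6]
    cases V with
    | nil => simp [wordL]
    | cons e V =>
      rw [length_wordL]
      simp only [List.length_cons] at h3 h4
      omega

lemma wordP_inj [FaithfulSMul A X] {o : X} {ω : ℕ → X → B →* A} (h : Good o ω)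
    (V W : List (A × B)) (hh : ∀ e ∈ V.head?, ∀ f ∈ W.head?, e.1 = f.1)
    (hVW : wordP o ω V = wordP o ω W) : V = W := by
  induction V generalizing W with
  | nil =>
    cases W with
    | nil => rfl
    | cons f W =>
      have := congrArg List.length hVW
      simp only [wordP, List.length_map, length_wordL] at this
      simp [wordL] at this
  | cons e V ih =>
    cases W with
    | nil =>
      have := congrArg List.length hVW
      simp only [wordP, List.length_map, length_wordL] at this
      simp [wordL] at this
    | cons f W =>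
      have hef : e.1 = f.1 := hh e (by simp) f (by simp)
      have hlen := congrArg List.length hVW
      simp only [wordP, List.length_map, length_wordL] at hlen
      cases V with
      | nil =>
        cases W with
        | nil =>
          simp only [wordP, wordL, List.map_cons, letP_inr, List.map_nil, List.cons.injEq,
            and_true] at hVW
          rw [Prod.ext hef (dirP_inj h hVW)]
        | cons f' W => simp at hlen
      | cons e' V =>
        cases W with
        | nil => simp at hlen
        | cons f' W =>
          simp only [wordP, wordL, List.map_cons, letP_inr, letP_inl, List.cons.injEq] at hVW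
          obtain ⟨h1, h2, h3⟩ := hVW
          have h4 := rootP_inj h2
          have h5 : e'.1 = f'.1 := by
            rw [hef] at h4
            exact inv_injective (mul_left_cancel h4)
          have h6 := ih (f' :: W) (by
            intro g hg g' hg'
            simp at hg hg'
            rw [← hg, ← hg', h5]) h3
          rw [h6, Prod.ext hef (dirP_inj h h1)]

lemma finite_gens [FaithfulSMul A X] [Finite A] [Finite B] (o : X) (ω : ℕ → X → B →* A) :
    (spinalGenerators o ω).Finite := by
  have : spinalGenerators o ω ⊆ Set.range (letP o ω : A ⊕ B → Equiv.Perm (List X)) := by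
    intro g hg
    obtain ⟨_, l, hl⟩ := mem_gens_iff.1 hg
    exact ⟨l, hl⟩
  exact (Set.finite_range _).subset this

lemma finite_words {G : Type*} [Monoid G] {S : Set G} (hS : S.Finite) (n : ℕ) :
    {l : List G | IsGeodesic S l ∧ l.length ≤ n}.Finite := by
  have := hS.to_subtype
  have h1 : {l : List S | l.length ≤ n}.Finite := List.finite_length_le S n
  refine (h1.image (fun l : List S => l.map Subtype.val)).subset ?_
  intro l hl
  obtain ⟨⟨h2, _⟩, h3⟩ := hl
  lift l to List S using h2
  exact ⟨l, by simpa using h3, rfl⟩

theorem expo_growth [FaithfulSMul A X] [MulAction.IsPretransitive A X] [Finite A] [Finite B]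
    {o : X} {ω : ℕ → X → B →* A} (h : Good o ω) (h4 : ¬ (Nat.card X = 2 ∧ Nat.card B = 2)) :
    ∃ K : ℕ, 0 < K ∧ ∀ n, 2 ^ (n / K) ≤ geodesicGrowth (spinalGenerators o ω) n := by
  classical
  obtain ⟨C, F, hF, hinj⟩ := expo_all h h4
  refine ⟨4 * (C + 1), by omega, fun n => ?_⟩
  have hfin := finite_words (finite_gens o ω) n
  rw [geodesicGrowth]
  set k := n / (4 * (C + 1)) with hk
  by_cases hk0 : k = 0
  · rw [hk0, pow_zero]
    exact (Set.ncard_pos hfin).2 ⟨[], ⟨by simp, by simp⟩, by simp⟩
  · let f : (Fin k → Bool) → List (Equiv.Perm (List X)) :=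
      fun c => wordP o ω (F (List.ofFn c))
    have hfi : Function.Injective f := by
      intro c c' hcc
      have h1 := wordP_inj h _ _ (by
        intro e he e' he'
        rw [(hF _).1.head e he, (hF _).1.head e' he']) hcc
      have h2 := hinj _ _ (by simp) h1
      exact List.ofFn_injective h2
    have hsub : ((Finset.univ.image f : Finset _) : Set (List (Equiv.Perm (List X)))) ⊆
        {l | IsGeodesic (spinalGenerators o ω) l ∧ l.length ≤ n} := by
      intro l hl
      simp only [Finset.coe_image, Finset.coe_univ, Set.image_univ, Set.mem_range] at hl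
      obtain ⟨c, rfl⟩ := hl
      refine ⟨wordP_geodesic h (hF _).1, ?_⟩
      have h1 := (hF (List.ofFn c)).2
      rw [List.length_ofFn] at h1
      change (wordP o ω (F (List.ofFn c))).length ≤ n
      have h2 : (wordP o ω (F (List.ofFn c))).length ≤ 2 * (F (List.ofFn c)).length := by
        rw [wordP, List.length_map]
        cases F (List.ofFn c) with
        | nil => simp [wordL]
        | cons e V => rw [length_wordL, List.length_cons]; omega
      have h3 : 4 * (C + 1) * k ≤ n := Nat.mul_div_le n _
      have h5 : 1 ≤ k := Nat.one_le_iff_ne_zero.2 hk0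
      nlinarith
    have h1 := Set.ncard_le_ncard hsub hfin
    rw [Set.ncard_coe_finset, Finset.card_image_of_injective _ hfi] at h1
    simpa using h1

end growth

end Pool.Agent.Helper90.Spinal
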