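import Pool.Agent.Helper90.SpinalTight

namespace Pool.Agent.Helper90.Spinal

set_option linter.unusedSectionVars false

section main

variable {X A B : Type*} [DecidableEq X] [Group A] [Group B] [MulAction A X]

/-- the standing hypotheses on `ω` -/
structure Good (o : X) (ω : ℕ → X → B →* A) : Prop where
  triv : ∀ k y, y ≠ o → (∀ b, ω k y b = 1) ∨ Function.Surjective (ω k y)
  surj : ∀ k, ∃ y, y ≠ o ∧ Function.Surjective (ω k y)
  faith : ∀ k b, b ≠ 1 → ∃ j ≥ k, ∃ y, y ≠ o ∧ ω j y b ≠ 1

lemma Good.sh {o : X} {ω : ℕ → X → B →* A} (h : Good o ω) : Good o (sh ω) where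
  triv := fun k y hy => h.triv (k + 1) y hy
  surj := fun k => h.surj (k + 1)
  faith := by
    intro k b hb
    obtain ⟨j, hj, y, hy, hne⟩ := h.faith (k + 1) b hb
    obtain ⟨j', rfl⟩ : ∃ j', j = j' + 1 := ⟨j - 1, by omega⟩
    exact ⟨j', by omega, y, hy, hne⟩

lemma exists_smul_ne [FaithfulSMul A X] {a : A} (ha : a ≠ 1) : ∃ x : X, a • x ≠ x := by
  by_contra h
  push Not at h
  exact ha (FaithfulSMul.eq_of_smul_eq_smul (α := X) (fun x => by rw [h x, one_smul]))

lemma rootP_inj [FaithfulSMul A X] {a b : A}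
    (h : (rootP a : Equiv.Perm (List X)) = rootP b) : a = b := by
  apply FaithfulSMul.eq_of_smul_eq_smul (α := X)
  intro x
  have := congrArg (fun g => g [x]) h
  simp only [rootP_apply, rootFun, List.cons.injEq] at this
  exact this.1

lemma dirP_ne_one_aux [FaithfulSMul A X] {o : X} (j : ℕ) :
    ∀ (ω : ℕ → X → B →* A) (b : B) (y : X), y ≠ o → ω j y b ≠ 1 → dirP o ω b ≠ 1 := by
  induction j with
  | zero =>
    intro ω b y hy hne h
    obtain ⟨x, hx⟩ := exists_smul_ne (X := X) hne
    have := congrArg (fun g => g [y, x]) h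
    simp [dirFun, hy, rootFun] at this
    exact hx this
  | succ j ih =>
    intro ω b y hy hne h
    apply ih (sh ω) b y hy hne
    ext v : 1
    have := congrArg (fun g => g (o :: v)) h
    simp [dirFun] at this
    simpa using this

lemma dirP_ne_one [FaithfulSMul A X] {o : X} {ω : ℕ → X → B →* A} (h : Good o ω) {b : B}
    (hb : b ≠ 1) : dirP o ω b ≠ 1 := by
  obtain ⟨j, _, y, hy, hne⟩ := h.faith 0 b hb
  exact dirP_ne_one_aux j ω b y hy hne

lemma dirP_inj [FaithfulSMul A X] {o : X} {ω : ℕ → X → B →* A} (h : Good o ω) {b c : B}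
    (hbc : dirP o ω b = dirP o ω c) : b = c := by
  by_contra hne
  have h1 : b * c⁻¹ ≠ 1 := fun h => hne (mul_inv_eq_one.1 h)
  apply dirP_ne_one h h1
  rw [map_mul, hbc, map_inv, mul_inv_cancel]

/-- a directed automorphism that is rooted is trivial -/
lemma dirP_ne_rootP [FaithfulSMul A X] {o : X} {ω : ℕ → X → B →* A} (h : Good o ω) {b : B}
    (hb : b ≠ 1) (a : A) : dirP o ω b ≠ rootP a := by
  intro hab
  have : a = 1 := by
    apply FaithfulSMul.eq_of_smul_eq_smul (α := X)
    intro x
    have := congrArg (fun g => g [x]) hab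
    by_cases hx : x = o
    · simp [dirFun, hx, rootFun] at this
      rw [one_smul, hx]; exact this.symm
    · simp [dirFun, hx, rootFun] at this
      rw [one_smul]; exact this.symm
  rw [this, map_one] at hab
  exact dirP_ne_one h hb hab

lemma nuGe_dirP [FaithfulSMul A X] {o : X} {ω : ℕ → X → B →* A} (h : Good o ω) {b : B}
    (hb : b ≠ 1) : NuGe A o ω (dirP o ω b) 1 := by
  intro V α hV
  cases V with
  | nil =>
    simp at hV
    exact absurd hV (dirP_ne_rootP h hb α)
  | cons e V => simp

variable [FaithfulSMul A X] [MulAction.IsPretransitive A X]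

lemma exists_b {o : X} {ω : ℕ → X → B →* A} (h : Good o ω) : ∃ b : B, b ≠ 1 := by
  obtain ⟨y, hy, hs⟩ := h.surj 0
  obtain ⟨σ, hσ⟩ := MulAction.exists_smul_eq A o y
  have h1 : σ ≠ 1 := by rintro rfl; rw [one_smul] at hσ; exact hy hσ.symm
  obtain ⟨b, hb⟩ := hs σ
  refine ⟨b, ?_⟩
  rintro rfl
  rw [map_one] at hb
  exact h1 hb.symm

lemma tight_two {o : X} {ω : ℕ → X → B →* A} (h : Good o ω) :
    ∃ V : List (A × B), Tight o ω V ∧ V.length = 2 := by
  obtain ⟨b, hb⟩ := exists_b h
  obtain ⟨y, hy, _⟩ := h.surj 0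
  obtain ⟨σ, hσ⟩ := MulAction.exists_smul_eq A o y
  have h1 : σ ≠ 1 := by rintro rfl; rw [one_smul] at hσ; exact hy hσ.symm
  have hso : σ • o ≠ o := by rw [hσ]; exact hy
  have hso' : σ⁻¹ • o ≠ o := by
    intro h2
    apply hso
    nth_rw 1 [← h2]
    rw [smul_inv_smul]
  refine ⟨[(1, b), (σ, b)], ⟨?_, ?_, ?_, ?_⟩, rfl⟩
  · intro e he
    simp at he
    rcases he with rfl | rfl <;> exact hb
  · simp [h1.symm]
  · intro e he
    simp at he
    rw [← he]
  · intro W hW
    have n1 : NuGe A o (sh ω) (evL o (sh ω) (secList o ω [((1 : A), b), (σ, b)] o)) 1 := by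
      have : evL o (sh ω) (secList o ω [((1 : A), b), (σ, b)] o) =
          dirP o (sh ω) b * rootP (ω 0 (σ • o) b) := by
        simp [secList, secLet, hso]
      rw [this]
      exact (nuGe_dirP h.sh hb).mul_root _
    have n2 : NuGe A o (sh ω) (evL o (sh ω) (secList o ω [((1 : A), b), (σ, b)] (σ⁻¹ • o))) 1 := by
      have : evL o (sh ω) (secList o ω [((1 : A), b), (σ, b)] (σ⁻¹ • o)) =
          rootP (ω 0 (σ⁻¹ • o) b) * dirP o (sh ω) b := by
        simp [secList, secLet, hso']
      rw [this]
      exact (nuGe_dirP h.sh hb).root_mul _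
    have c1 := count_O hW n1
    have c2 := count_O hW n2
    have c3 := countP_two (atO o o) (atO o (σ⁻¹ • o)) W (by
      intro e he
      simp only [atO, decide_eq_true_eq] at he
      have := he.1.trans he.2.symm
      exact hso' (smul_left_cancel _ this).symm)
    simp only [List.length_cons, List.length_nil]
    omega

open Classical in
/-- a choice function obtained from two functions -/
noncomputable def pick2 (p q : A → A × B) (c : Bool) : A → A × B := if c then q else p

lemma exists_pick {o : X} {ω : ℕ → X → B →* A} (h : Good o ω) :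
    ∃ pk : Bool → A → A × B, Picks o ω pk := by
  obtain ⟨y, hy, hs⟩ := h.surj 0
  obtain ⟨σ, hσ⟩ := MulAction.exists_smul_eq A o y
  choose f hf using hs
  refine ⟨fun _ a => (σ, f a), ?_⟩
  intro c a _
  refine ⟨by simpa [hσ] using hy, by simp [hσ, hf]⟩

lemma tight_all (n : ℕ) : ∀ {o : X} {ω : ℕ → X → B →* A}, Good o ω →
    ∃ V : List (A × B), Tight o ω V ∧ V.length = n := by
  induction n using Nat.strong_induction_on with
  | _ n ih =>
    intro o ω h
    by_cases hn : n ≤ 2
    · obtain ⟨V, hV, hl⟩ := tight_two h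
      exact ⟨V.take n, hV.take n, by simp [hl, hn]⟩
    · obtain ⟨V, hV, hl⟩ := ih ((n + 2) / 2) (by omega) h.sh
      obtain ⟨pk, hpk⟩ := exists_pick h
      refine ⟨(serve pk [] V).take n, (hV.serve hpk []).take n, ?_⟩
      cases V with
      | nil => simp at hl
      | cons e V =>
        rw [List.length_take, length_serve]
        simp only [List.length_cons] at hl
        omega

/-- two different ways to serve every letter -/
def Two (o : X) (ω : ℕ → X → B →* A) : Prop :=
  ∀ a : A, a ≠ 1 → ∃ p q : A × B, p ≠ q ∧ (p.1 • o ≠ o ∧ ω 0 (p.1 • o) p.2 = a) ∧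
    (q.1 • o ≠ o ∧ ω 0 (q.1 • o) q.2 = a)

lemma serve_bits {pk : Bool → A → A × B}
    (hne : ∀ a, a ≠ 1 → pk false a ≠ pk true a) (V : List (A × B))
    (hV : V.IsChain (fun e f => e.1 ≠ f.1)) (c c' : List Bool) (hc : c.length + 1 = V.length)
    (hc' : c'.length + 1 = V.length) (h : serve pk c V = serve pk c' V) : c = c' := by
  induction V generalizing c c' with
  | nil => simp at hc
  | cons e V ih =>
    cases V with
    | nil =>
      simp at hc hc'
      rw [hc, hc']
    | cons f V =>
      rw [List.isChain_cons_cons] at hV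
      have h1 : e.1 * f.1⁻¹ ≠ 1 := fun h => hV.1 (mul_inv_eq_one.1 h)
      cases c with
      | nil => simp at hc
      | cons b c =>
        cases c' with
        | nil => simp at hc'
        | cons b' c' =>
          simp only [serve, List.cons.injEq, List.tail_cons, List.headD_cons, true_and] at h
          obtain ⟨h2, h3⟩ := h
          have h4 := hne _ h1
          have h5 : b = b' := by
            cases b <;> cases b'
            · rfl
            · exact absurd h2 h4
            · exact absurd h2.symm h4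
            · rfl
          have h6 := ih hV.2 c c' (by simpa using hc) (by simpa using hc') h3
          rw [h5, h6]

lemma expo_of_two {o : X} {ω : ℕ → X → B →* A} (h : Good o ω) (h2 : Two o ω) : Expo o ω := by
  classical
  have h2' : ∀ a : A, ∃ pq : (A × B) × (A × B), a ≠ 1 → pq.1 ≠ pq.2 ∧
      (pq.1.1 • o ≠ o ∧ ω 0 (pq.1.1 • o) pq.1.2 = a) ∧
      (pq.2.1 • o ≠ o ∧ ω 0 (pq.2.1 • o) pq.2.2 = a) := by
    intro a
    by_cases ha : a = 1
    · exact ⟨((1, 1), (1, 1)), fun h => absurd ha h⟩
    · obtain ⟨p, q, h3, h4, h5⟩ := h2 a ha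
      exact ⟨(p, q), fun _ => ⟨h3, h4, h5⟩⟩
  choose pq hpq using h2'
  let pk : Bool → A → A × B := fun c a => if c then (pq a).2 else (pq a).1
  have hpk : Picks o ω pk := by
    intro c a ha
    cases c
    · exact (hpq a ha).2.1
    · exact (hpq a ha).2.2
  have hne : ∀ a, a ≠ 1 → pk false a ≠ pk true a := fun a ha => (hpq a ha).1
  choose V hV hl using fun n => tight_all (A := A) n h.sh
  refine ⟨2, fun c => serve pk c (V (c.length + 1)), fun c => ⟨(hV _).serve hpk c, ?_⟩, ?_⟩
  · change (serve pk c (V (c.length + 1))).length ≤ 2 * (c.length + 1)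
    have hl' := hl (c.length + 1)
    cases hF : V (c.length + 1) with
    | nil => simp [serve]
    | cons e W =>
      rw [length_serve]
      rw [hF] at hl'
      simp only [List.length_cons] at hl'
      omega
  · intro c c' hcc heq
    simp only [← hcc] at heq
    exact serve_bits hne _ (hV _).chain c c' (by rw [hl]) (by rw [hl, hcc]) heq

/-- the remaining case -/
structure Uni (o : X) (ω : ℕ → X → B →* A) (s : A) : Prop where
  free : ∀ σ τ : A, σ • o = τ • o → σ = τ
  ne : s • o ≠ o
  inj : Function.Injective (ω 0 (s • o))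
  surj : Function.Surjective (ω 0 (s • o))
  triv : ∀ y, y ≠ o → y ≠ s • o → ∀ b, ω 0 y b = 1

lemma uni_of_not_two {o : X} {ω : ℕ → X → B →* A} (h : Good o ω) (h2 : ¬ Two o ω) :
    ∃ s, Uni o ω s := by
  unfold Two at h2
  push Not at h2
  obtain ⟨a, ha, h3⟩ := h2
  obtain ⟨y, hy, hs⟩ := h.surj 0
  obtain ⟨s, hso⟩ := MulAction.exists_smul_eq A o y
  obtain ⟨c, hc⟩ := hs a
  have hsne : s • o ≠ o := by rw [hso]; exact hy
  have hfree1 : ∀ g : A, g • o = o → g = 1 := by
    intro g hg
    by_contra hg1
    have := h3 (s, c) (s * g, c) (by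
      intro he
      have := (Prod.ext_iff.1 he).1
      simp at this
      exact hg1 this) ⟨hsne, by simp [hso, hc]⟩
    apply this
    · simp only [mul_smul, hg]; exact hsne
    · simp only [mul_smul, hg, hso, hc]
  refine ⟨s, ?_, hsne, ?_, ?_, ?_⟩
  · intro σ τ hστ
    have := hfree1 (τ⁻¹ * σ) (by rw [mul_smul, hστ, inv_smul_smul])
    exact (inv_mul_eq_one.1 this).symm
  · rw [hso]
    rw [injective_iff_map_eq_one]
    intro k hk
    by_contra hk1
    have := h3 (s, c) (s, c * k) (by
      intro he
      have := (Prod.ext_iff.1 he).2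
      simp at this
      exact hk1 this) ⟨hsne, by simp [hso, hc]⟩
    apply this
    · exact hsne
    · simp only [hso, map_mul, hc, hk, mul_one]
  · rw [hso]; exact hs
  · intro z hz hzs
    rcases h.triv 0 z hz with h4 | h4
    · exact h4
    · exfalso
      obtain ⟨d, hd⟩ := h4 a
      obtain ⟨t, ht⟩ := MulAction.exists_smul_eq A o z
      have := h3 (s, c) (t, d) (by
        intro he
        have := (Prod.ext_iff.1 he).1
        simp only at this
        exact hzs (by rw [← ht, this])) ⟨hsne, by simp [hso, hc]⟩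
      apply this
      · simp only [ht]; exact hz
      · simp only [ht, hd]

end main

end Pool.Agent.Helper90.Spinal
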