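import Pool.Agent.Helper90.SpinalCore

namespace Pool.Agent.Helper90.Spinal

set_option linter.unusedSectionVars false

section tight

variable {X A B : Type*} [DecidableEq X] [Group A] [Group B] [MulAction A X]

/-- events whose configuration sends `x` to `o` -/
def atO (o x : X) (e : A × B) : Bool := decide (e.1 • x = o)

open Classical in
/-- events whose configuration gives a nontrivial `A`-letter at `x` -/
noncomputable def atK (o : X) (ω : ℕ → X → B →* A) (x : X) (e : A × B) : Bool :=
  decide (e.1 • x ≠ o ∧ ω 0 (e.1 • x) e.2 ≠ 1)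

lemma countP_secList_isB (o : X) (ω : ℕ → X → B →* A) (V : List (A × B)) (x : X) :
    (secList o ω V x).countP isB = V.countP (atO o x) := by
  rw [secList, List.countP_map]
  congr 1
  funext e
  by_cases h : e.1 • x = o <;> simp [secLet, isB, atO, h]

lemma countP_secList_isA (o : X) (ω : ℕ → X → B →* A) (V : List (A × B)) (x : X) :
    (secList o ω V x).countP isA = V.countP (atK o ω x) := by
  rw [secList, List.countP_map]
  congr 1
  funext e
  by_cases h : e.1 • x = o <;> simp [secLet, isA, atK, h]

lemma evE_eq_sec {o : X} {ω : ℕ → X → B →* A} {V W : List (A × B)}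
    (h : evE o ω V = evE o ω W) (x : X) :
    evL o (sh ω) (secList o ω V x) = evL o (sh ω) (secList o ω W x) := by
  ext v : 1
  have := congrArg (fun g => g (x :: v)) h
  simp only [evE_apply_cons, List.cons.injEq, true_and] at this
  exact this

/-- the values of two lists of events agree as soon as all sections agree -/
lemma evE_ext {o : X} {ω : ℕ → X → B →* A} {V W : List (A × B)}
    (h : ∀ x, evL o (sh ω) (secList o ω V x) = evL o (sh ω) (secList o ω W x)) :
    evE o ω V = evE o ω W := by
  ext v : 1
  cases v with
  | nil => rw [evE_apply_nil, evE_apply_nil]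
  | cons x v => rw [evE_apply_cons, evE_apply_cons, h x]

lemma count_O {o : X} {ω : ℕ → X → B →* A} {V W : List (A × B)}
    (h : evE o ω W = evE o ω V) {x : X} {n : ℕ}
    (hn : NuGe A o (sh ω) (evL o (sh ω) (secList o ω V x)) n) : n ≤ W.countP (atO o x) := by
  rw [← evE_eq_sec h] at hn
  rw [← countP_secList_isB (ω := ω)]
  exact hn.le_nb

lemma count_K {o : X} {ω : ℕ → X → B →* A} {V W : List (A × B)}
    (h : evE o ω W = evE o ω V) {x : X} {n : ℕ}
    (hn : NuGe A o (sh ω) (evL o (sh ω) (secList o ω V x)) n) :
    n ≤ W.countP (atK o ω x) + 1 := by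
  rw [← evE_eq_sec h] at hn
  rw [← countP_secList_isA (ω := ω)]
  exact hn.le_na

/-- minimal lists of events -/
def IsMin (o : X) (ω : ℕ → X → B →* A) (V : List (A × B)) : Prop :=
  ∀ W : List (A × B), evE o ω W = evE o ω V → V.length ≤ W.length

lemma root_eq_one_of_evE [FaithfulSMul A X] {o : X} {ω : ℕ → X → B →* A} {V W : List (A × B)}
    {α : A} (h : evE o ω V = evE o ω W * rootP α) : α = 1 := by
  apply FaithfulSMul.eq_of_smul_eq_smul (α := X)
  intro x
  have := congrArg (fun g => g [x]) h
  simp only [evE_apply_cons, Equiv.Perm.mul_apply, rootP_apply, rootFun, List.cons.injEq] at this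
  rw [one_smul]; exact this.1.symm

lemma nuGe_evE_iff [FaithfulSMul A X] {o : X} {ω : ℕ → X → B →* A} {V : List (A × B)} {n : ℕ} :
    NuGe A o ω (evE o ω V) n ↔ ∀ W : List (A × B), evE o ω W = evE o ω V → n ≤ W.length := by
  constructor
  · intro h W hW
    exact h W 1 (by rw [hW]; simp)
  · intro h W α hW
    have := root_eq_one_of_evE hW
    subst this
    exact h W (by rw [hW]; simp)

lemma IsMin.nuGe [FaithfulSMul A X] {o : X} {ω : ℕ → X → B →* A} {V : List (A × B)}
    (h : IsMin o ω V) : NuGe A o ω (evE o ω V) V.length := nuGe_evE_iff.2 h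

lemma IsMin.left {o : X} {ω : ℕ → X → B →* A} {V W : List (A × B)}
    (h : IsMin o ω (V ++ W)) : IsMin o ω V := by
  intro U hU
  have := h (U ++ W) (by rw [evE_append, evE_append, hU])
  simp at this
  exact this

/-- Lists of events giving geodesic words. -/
structure Tight (o : X) (ω : ℕ → X → B →* A) (V : List (A × B)) : Prop where
  ne : ∀ e ∈ V, e.2 ≠ 1
  chain : V.IsChain (fun e f => e.1 ≠ f.1)
  head : ∀ e ∈ V.head?, e.1 = 1
  min : IsMin o ω V

lemma Tight.take {o : X} {ω : ℕ → X → B →* A} {V : List (A × B)} (h : Tight o ω V) (n : ℕ) :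
    Tight o ω (V.take n) := by
  refine ⟨fun e he => h.ne e (List.mem_of_mem_take he), h.chain.take n, ?_, ?_⟩
  · intro e he
    rw [List.head?_take] at he
    split_ifs at he with h0
    · simp at he
    · exact h.head e he
  · have := h.min
    rw [← List.take_append_drop n V] at this
    exact this.left

/-- The word (list of letters) of a list of events. -/
def wordL : List (A × B) → List (A ⊕ B)
  | [] => []
  | [e] => [Sum.inr e.2]
  | e :: f :: V => Sum.inr e.2 :: Sum.inl (e.1 * f.1⁻¹) :: wordL (f :: V)

lemma length_wordL (e : A × B) (V : List (A × B)) :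
    (wordL (e :: V)).length = 2 * V.length + 1 := by
  induction V generalizing e with
  | nil => simp [wordL]
  | cons f V ih => simp [wordL, ih f]; ring

lemma evL_wordL (o : X) (ω : ℕ → X → B →* A) (e : A × B) (V : List (A × B)) :
    ∃ α : A, evL o ω (wordL (e :: V)) = rootP e.1 * evE o ω (e :: V) * rootP α := by
  induction V generalizing e with
  | nil =>
    refine ⟨e.1⁻¹, ?_⟩
    simp [wordL, ev, mul_assoc]
  | cons f V ih =>
    obtain ⟨α, hα⟩ := ih f
    refine ⟨α, ?_⟩
    rw [wordL, evL_cons, evL_cons, hα, evE_cons (e := e)]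
    simp [ev, mul_assoc]

lemma nuGe_wordL [FaithfulSMul A X] {o : X} {ω : ℕ → X → B →* A} {V : List (A × B)}
    (h : IsMin o ω V) : NuGe A o ω (evL o ω (wordL V)) V.length := by
  cases V with
  | nil => intro W α _; simp
  | cons e V =>
    obtain ⟨α, hα⟩ := evL_wordL o ω e V
    rw [hα]
    exact ((h.nuGe).root_mul _).mul_root _

/-- Serving a word at the distinguished vertex; `pk` chooses how to produce each `A`-letter. -/
def serve (pk : Bool → A → A × B) : List Bool → List (A × B) → List (A × B)
  | _, [] => []
  | _, [e] => [(1, e.2)]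
  | cs, e :: f :: V => (1, e.2) :: pk (cs.headD false) (e.1 * f.1⁻¹) :: serve pk cs.tail (f :: V)

/-- `pk` is a valid choice function at level `0`. -/
def Picks (o : X) (ω : ℕ → X → B →* A) (pk : Bool → A → A × B) : Prop :=
  ∀ c a, a ≠ 1 → (pk c a).1 • o ≠ o ∧ ω 0 ((pk c a).1 • o) (pk c a).2 = a

lemma length_serve (pk : Bool → A → A × B) (cs : List Bool) (e : A × B) (V : List (A × B)) :
    (serve pk cs (e :: V)).length = 2 * V.length + 1 := by
  induction V generalizing e cs with
  | nil => simp [serve]
  | cons f V ih => simp [serve, ih]; ring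

lemma secList_serve {o : X} {ω : ℕ → X → B →* A} {pk : Bool → A → A × B} (hpk : Picks o ω pk)
    (cs : List Bool) (V : List (A × B)) (hV : V.IsChain (fun e f => e.1 ≠ f.1)) :
    secList o ω (serve pk cs V) o = wordL V := by
  induction V generalizing cs with
  | nil => simp [serve, wordL, secList]
  | cons e V ih =>
    cases V with
    | nil => simp [serve, wordL, secList, secLet]
    | cons f V =>
      rw [List.isChain_cons_cons] at hV
      have h1 : e.1 * f.1⁻¹ ≠ 1 := fun h => hV.1 (mul_inv_eq_one.1 h)
      have h2 := hpk (cs.headD false) _ h1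
      have h3 := ih cs.tail hV.2
      simp only [secList] at h3
      simp only [serve, wordL, secList, List.map_cons, h3]
      simp only [secLet, if_neg h2.1, h2.2]
      simp

lemma head_serve (pk : Bool → A → A × B) (cs : List Bool) (V : List (A × B)) :
    ∀ e ∈ (serve pk cs V).head?, e.1 = 1 := by
  intro e he
  cases V with
  | nil => simp [serve] at he
  | cons f V =>
    cases V with
    | nil => simp [serve] at he; rw [← he]
    | cons f' V => simp [serve] at he; rw [← he]

lemma serve_ne {o : X} {ω : ℕ → X → B →* A} {pk : Bool → A → A × B} (hpk : Picks o ω pk)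
    (cs : List Bool) (V : List (A × B)) (hV : V.IsChain (fun e f => e.1 ≠ f.1))
    (hne : ∀ e ∈ V, e.2 ≠ 1) : ∀ e ∈ serve pk cs V, e.2 ≠ 1 := by
  induction V generalizing cs with
  | nil => simp [serve]
  | cons e V ih =>
    cases V with
    | nil => simpa [serve] using hne
    | cons f V =>
      rw [List.isChain_cons_cons] at hV
      have h1 : e.1 * f.1⁻¹ ≠ 1 := fun h => hV.1 (mul_inv_eq_one.1 h)
      have h2 := hpk (cs.headD false) _ h1
      intro g hg
      simp only [serve, List.mem_cons] at hg
      rcases hg with rfl | rfl | hg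
      · exact hne e (by simp)
      · intro h3
        rw [h3, map_one] at h2
        exact h1 h2.2.symm
      · exact ih cs.tail hV.2 (fun e he => hne e (by simp [List.mem_cons] at he ⊢; tauto)) g hg

lemma serve_chain {o : X} {ω : ℕ → X → B →* A} {pk : Bool → A → A × B} (hpk : Picks o ω pk)
    (cs : List Bool) (V : List (A × B)) (hV : V.IsChain (fun e f => e.1 ≠ f.1)) :
    (serve pk cs V).IsChain (fun e f => e.1 ≠ f.1) := by
  induction V generalizing cs with
  | nil => simp [serve]
  | cons e V ih =>
    cases V with
    | nil => simp [serve]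
    | cons f V =>
      rw [List.isChain_cons_cons] at hV
      have h1 : e.1 * f.1⁻¹ ≠ 1 := fun h => hV.1 (mul_inv_eq_one.1 h)
      have h2 := hpk (cs.headD false) _ h1
      have h4 : (pk (cs.headD false) (e.1 * f.1⁻¹)).1 ≠ 1 := fun h => h2.1 (by rw [h, one_smul])
      have h3 := ih cs.tail hV.2
      have h5 := head_serve pk cs.tail (f :: V)
      simp only [serve]
      rw [List.isChain_cons_cons]
      refine ⟨fun h => h4 h.symm, ?_⟩
      rw [List.isChain_cons]
      refine ⟨?_, h3⟩
      intro g hg
      rw [h5 g hg]; exact h4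

/-- disjoint counts -/
lemma countP_two {α : Type*} (p q : α → Bool) (V : List α)
    (h : ∀ e, ¬ (p e = true ∧ q e = true)) : V.countP p + V.countP q ≤ V.length := by
  induction V with
  | nil => simp
  | cons e V ih =>
    have := h e
    rw [List.countP_cons, List.countP_cons, List.length_cons]
    by_cases hp : p e = true
    · by_cases hq : q e = true
      · exact absurd ⟨hp, hq⟩ this
      · simp [hp, hq]; omega
    · by_cases hq : q e = true
      · simp [hp, hq]; omega
      · simp [hp, hq]; omega

lemma atO_atK_disj {o : X} {ω : ℕ → X → B →* A} {x : X} (e : A × B) :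
    ¬ (atO o x e = true ∧ atK o ω x e = true) := by
  simp only [atO, atK, decide_eq_true_eq]
  tauto

lemma serve_min [FaithfulSMul A X] {o : X} {ω : ℕ → X → B →* A} {pk : Bool → A → A × B}
    (hpk : Picks o ω pk) (cs : List Bool) (V : List (A × B))
    (hV : Tight o (sh ω) V) : IsMin o ω (serve pk cs V) := by
  cases V with
  | nil => intro W _; simp [serve]
  | cons e V =>
    intro W hW
    have h0 := nuGe_wordL hV.min
    rw [← secList_serve hpk cs (e :: V) hV.chain] at h0
    have h1 := count_O hW h0
    have h2 := count_K hW h0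
    have h3 := countP_two (atO o o) (atK o ω o) W (fun e => atO_atK_disj e)
    rw [length_serve]
    simp only [List.length_cons] at h1 h2
    omega

lemma Tight.serve [FaithfulSMul A X] {o : X} {ω : ℕ → X → B →* A} {pk : Bool → A → A × B}
    (hpk : Picks o ω pk) (cs : List Bool) {V : List (A × B)}
    (hV : Tight o (sh ω) V) : Tight o ω (serve pk cs V) :=
  ⟨serve_ne hpk cs V hV.chain hV.ne, serve_chain hpk cs V hV.chain, head_serve pk cs V,
    serve_min hpk cs V hV⟩

/-- Exponentially many tight lists of events. -/
def Expo (o : X) (ω : ℕ → X → B →* A) : Prop :=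
  ∃ (C : ℕ) (F : List Bool → List (A × B)),
    (∀ c, Tight o ω (F c) ∧ (F c).length ≤ C * (c.length + 1)) ∧
    ∀ c c', c.length = c'.length → F c = F c' → c = c'

/-- serving is injective on tight lists -/
lemma serve_inj {o : X} {ω : ℕ → X → B →* A} {pk : Bool → A → A × B}
    (hpk : Picks o ω pk) (V W : List (A × B))
    (hV : V.IsChain (fun e f => e.1 ≠ f.1)) (hW : W.IsChain (fun e f => e.1 ≠ f.1))
    (hhead : ∀ e ∈ V.head?, ∀ f ∈ W.head?, e.1 = f.1)
    (h : serve pk [] V = serve pk [] W) : V = W := by
  induction V generalizing W with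
  | nil =>
    cases W with
    | nil => rfl
    | cons f W =>
      have := congrArg List.length h
      rw [length_serve] at this
      simp [serve] at this
  | cons e V ih =>
    cases W with
    | nil =>
      have := congrArg List.length h
      rw [length_serve] at this
      simp [serve] at this
    | cons f W =>
      have hef : e.1 = f.1 := hhead e (by simp) f (by simp)
      have hlen := congrArg List.length h
      rw [length_serve, length_serve] at hlen
      cases V with
      | nil =>
        cases W with
        | nil =>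
          simp [serve] at h
          rw [Prod.ext hef h]
        | cons f' W => simp at hlen
      | cons e' V =>
        cases W with
        | nil => simp at hlen
        | cons f' W =>
          rw [List.isChain_cons_cons] at hV hW
          simp only [serve, List.cons.injEq, List.tail_nil, List.headD_nil] at h
          obtain ⟨h1, h2, h3⟩ := h
          have hne1 : e.1 * e'.1⁻¹ ≠ 1 := fun h => hV.1 (mul_inv_eq_one.1 h)
          have hne2 : f.1 * f'.1⁻¹ ≠ 1 := fun h => hW.1 (mul_inv_eq_one.1 h)
          have h4 : e.1 * e'.1⁻¹ = f.1 * f'.1⁻¹ := by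
            rw [← (hpk false _ hne1).2, ← (hpk false _ hne2).2, h2]
          have h5 : e'.1 = f'.1 := by
            rw [hef] at h4
            exact inv_injective (mul_left_cancel h4)
          have h6 := ih (f' :: W) hV.2 hW.2 (by
            intro g hg g' hg'
            simp at hg hg'
            rw [← hg, ← hg', h5]) h3
          rw [h6, Prod.ext hef (Prod.ext_iff.1 h1).2]

lemma Expo.up [FaithfulSMul A X] {o : X} {ω : ℕ → X → B →* A} {pk : Bool → A → A × B}
    (hpk : Picks o ω pk) (h : Expo o (sh ω)) : Expo o ω := by
  obtain ⟨C, F, h1, h2⟩ := h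
  refine ⟨2 * C, fun c => serve pk [] (F c), fun c => ⟨(h1 c).1.serve hpk [], ?_⟩, ?_⟩
  · have := (h1 c).2
    change (serve pk [] (F c)).length ≤ 2 * C * (c.length + 1)
    cases hF : F c with
    | nil => simp [serve]
    | cons e V =>
      rw [length_serve]
      rw [hF] at this
      simp only [List.length_cons] at this
      nlinarith
  · intro c c' hc hcc
    apply h2 c c' hc
    refine serve_inj hpk _ _ (h1 c).1.chain (h1 c').1.chain ?_ hcc
    intro e he f hf
    rw [(h1 c).1.head e he, (h1 c').1.head f hf]

end tight

end Pool.Agent.Helper90.Spinal
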