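import Pool.Agent.Helper90.SpinalMain

namespace Pool.Agent.Helper90.Spinal

set_option linter.unusedSectionVars false

section weave

variable {X A B : Type*} [DecidableEq X] [Group A] [Group B] [MulAction A X]

lemma countP_four {α : Type*} (p q r s : α → Bool) (V : List α)
    (h1 : ∀ e, ¬ (p e = true ∧ q e = true)) (h2 : ∀ e, ¬ (p e = true ∧ r e = true))
    (h3 : ∀ e, ¬ (p e = true ∧ s e = true)) (h4 : ∀ e, ¬ (q e = true ∧ r e = true))
    (h5 : ∀ e, ¬ (q e = true ∧ s e = true)) (h6 : ∀ e, ¬ (r e = true ∧ s e = true)) :
    V.countP p + V.countP q + V.countP r + V.countP s ≤ V.length := by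
  induction V with
  | nil => simp
  | cons e V ih =>
    have g1 := h1 e
    have g2 := h2 e
    have g3 := h3 e
    have g4 := h4 e
    have g5 := h5 e
    have g6 := h6 e
    simp only [List.countP_cons, List.length_cons]
    cases hp : p e <;> cases hq : q e <;> cases hr : r e <;> cases hs : s e <;>
      simp_all <;> omega

/-- Two copies of a list of events, in an order prescribed by bits. -/
def weave (t : A) : List Bool → List (A × B) → List (A × B)
  | _, [] => []
  | cs, e :: U =>
      (if cs.headD false then [(e.1 * t, e.2), e] else [e, (e.1 * t, e.2)]) ++ weave t cs.tail U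

lemma length_weave (t : A) (cs : List Bool) (U : List (A × B)) :
    (weave t cs U).length = 2 * U.length := by
  induction U generalizing cs with
  | nil => simp [weave]
  | cons e U ih =>
    rw [weave, List.length_append, ih, List.length_cons]
    split_ifs <;> simp <;> ring

lemma weave_ne (t : A) (cs : List Bool) (U : List (A × B)) (h : ∀ e ∈ U, e.2 ≠ 1) :
    ∀ e ∈ weave t cs U, e.2 ≠ 1 := by
  induction U generalizing cs with
  | nil => simp [weave]
  | cons e U ih =>
    intro f hf
    rw [weave, List.mem_append] at hf
    have h1 := h e (by simp)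
    rcases hf with hf | hf
    · split_ifs at hf
      · simp at hf; rcases hf with rfl | rfl <;> exact h1
      · simp at hf; rcases hf with rfl | rfl <;> exact h1
    · exact ih cs.tail (fun e he => h e (by simp [he])) f hf

lemma weave_head (t : A) (cs : List Bool) (U : List (A × B)) :
    ∀ f ∈ (weave t cs U).head?, ∃ e ∈ U.head?, f.1 = e.1 ∨ f.1 = e.1 * t := by
  intro f hf
  cases U with
  | nil => simp [weave] at hf
  | cons e U =>
    refine ⟨e, by simp, ?_⟩
    rw [weave] at hf
    split_ifs at hf
    · simp at hf; right; rw [← hf]
    · simp at hf; left; rw [hf]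

lemma weave_chain (t : A) (ht : t ≠ 1) (cs : List Bool) (U : List (A × B))
    (h : U.IsChain (fun e f => e.1 ≠ f.1 ∧ e.1 ≠ f.1 * t ∧ e.1 * t ≠ f.1 ∧ e.1 * t ≠ f.1 * t)) :
    (weave t cs U).IsChain (fun e f => e.1 ≠ f.1) := by
  induction U generalizing cs with
  | nil => simp [weave]
  | cons e U ih =>
    have h1 : (weave t cs.tail U).IsChain (fun e f => e.1 ≠ f.1) := by
      apply ih
      exact h.tail
    have h2 := weave_head t cs.tail U
    have key : ∀ f ∈ (weave t cs.tail U).head?, e.1 ≠ f.1 ∧ e.1 * t ≠ f.1 := by
      intro f hf
      obtain ⟨g, hg, hfg⟩ := h2 f hf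
      rw [List.isChain_cons] at h
      obtain ⟨k1, k2, k3, k4⟩ := h.1 g hg
      rcases hfg with h5 | h5
      · rw [h5]; exact ⟨k1, k3⟩
      · rw [h5]; exact ⟨k2, k4⟩
    have ht1 : e.1 * t ≠ e.1 := by simpa using ht
    rw [weave]
    split_ifs
    · simp only [List.cons_append, List.nil_append]
      rw [List.isChain_cons_cons, List.isChain_cons]
      exact ⟨ht1, fun f hf => (key f hf).1, h1⟩
    · simp only [List.cons_append, List.nil_append]
      rw [List.isChain_cons_cons, List.isChain_cons]
      exact ⟨ht1.symm, fun f hf => (key f hf).2, h1⟩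

lemma evL_secList_weave_left {o : X} {ω : ℕ → X → B →* A} (t : A) (cs : List Bool)
    (U : List (A × B)) (x : X)
    (h : ∀ e ∈ U, letP o (sh ω) (secLet o ω x (e.1 * t, e.2)) = 1) :
    evL o (sh ω) (secList o ω (weave t cs U) x) = evL o (sh ω) (secList o ω U x) := by
  induction U generalizing cs with
  | nil => simp [weave]
  | cons e U ih =>
    have h1 := h e (by simp)
    have h2 := ih cs.tail (fun e he => h e (by simp [he]))
    simp only [secList] at h2
    simp only [weave, secList, List.map_append, evL_append, h2, List.map_cons, evL_cons]
    split_ifs <;> simp [h1]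

lemma evL_secList_weave_right {o : X} {ω : ℕ → X → B →* A} (t : A) (cs : List Bool)
    (U : List (A × B)) (x : X)
    (h : ∀ e ∈ U, letP o (sh ω) (secLet o ω x e) = 1) :
    evL o (sh ω) (secList o ω (weave t cs U) x) =
      evL o (sh ω) (secList o ω U (t • x)) := by
  induction U generalizing cs with
  | nil => simp [weave, secList]
  | cons e U ih =>
    have h1 := h e (by simp)
    have h2 := ih cs.tail (fun e he => h e (by simp [he]))
    have h3 : secLet o ω x (e.1 * t, e.2) = secLet o ω (t • x) e := by
      simp [secLet, mul_smul]
    simp only [secList] at h2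
    simp only [weave, secList, List.map_append, evL_append, h2, List.map_cons, evL_cons]
    split_ifs <;> simp [h1, h3]

lemma weave_bits (t : A) (ht : t ≠ 1) (U : List (A × B)) (cs cs' : List Bool)
    (hc : cs.length = cs'.length) (hc' : cs.length ≤ U.length)
    (h : weave t cs U = weave t cs' U) : cs = cs' := by
  induction U generalizing cs cs' with
  | nil =>
    simp at hc'
    rw [hc'] at hc ⊢
    exact (List.length_eq_zero_iff.1 hc.symm).symm
  | cons e U ih =>
    cases cs with
    | nil => exact (List.length_eq_zero_iff.1 hc.symm).symm
    | cons b c =>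
      cases cs' with
      | nil => simp at hc
      | cons b' c' =>
        have ht1 : (e.1 * t, e.2) ≠ e := by
          intro h
          have := (Prod.ext_iff.1 h).1
          simp at this
          exact ht this
        simp only [weave, List.tail_cons, List.headD_cons] at h
        cases b <;> cases b' <;> simp only [if_true, if_false, Bool.false_eq_true,
          List.cons_append, List.nil_append, List.cons.injEq, true_and] at h
        · rw [ih c c' (by simpa using hc) (by simpa using hc') h]
        · exact absurd h.1.symm ht1
        · exact absurd h.1 ht1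
        · rw [ih c c' (by simpa using hc) (by simpa using hc') h]

variable [FaithfulSMul A X] [MulAction.IsPretransitive A X]

lemma serve_config {s : A} {f : A → B} (cs : List Bool) (V : List (A × B)) :
    ∀ e ∈ serve (fun _ a => (s, f a)) cs V, e.1 = 1 ∨ e.1 = s := by
  induction V generalizing cs with
  | nil => simp [serve]
  | cons e V ih =>
    cases V with
    | nil => simp [serve]
    | cons f' V =>
      intro g hg
      simp only [serve, List.mem_cons] at hg
      rcases hg with rfl | rfl | hg
      · left; rfl
      · right; rfl
      · exact ih cs.tail g hg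

lemma serve_chain' {s t : A} {f : A → B} (hs : s ≠ 1) (hts : t ≠ s)
    (hst : s * t ≠ 1) (cs : List Bool) (V : List (A × B)) :
    (serve (fun _ a => (s, f a)) cs V).IsChain
      (fun e f => e.1 ≠ f.1 ∧ e.1 ≠ f.1 * t ∧ e.1 * t ≠ f.1 ∧ e.1 * t ≠ f.1 * t) := by
  induction V generalizing cs with
  | nil => simp [serve]
  | cons e V ih =>
    cases V with
    | nil => simp [serve]
    | cons f' V =>
      have h5 := head_serve (fun _ a => (s, f a)) cs.tail (f' :: V)
      simp only [serve]
      rw [List.isChain_cons_cons]
      refine ⟨?_, ?_⟩
      · refine ⟨hs.symm, hst.symm, ?_, ?_⟩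
        · simpa using hts
        · simp only [one_mul]
          intro h
          apply hs
          exact (mul_eq_right.1 h.symm)
      · rw [List.isChain_cons]
        refine ⟨?_, ih cs.tail⟩
        intro g hg
        rw [h5 g hg]
        refine ⟨hs, ?_, hst, ?_⟩
        · simpa using hts.symm
        · simp only [one_mul]
          intro h
          apply hs
          exact (mul_eq_right.1 h)

lemma expo_weave {o : X} {ω : ℕ → X → B →* A} (h : Good o ω) {s : A} (hu : Uni o ω s)
    {t : A} (ht : t ≠ 1) (hts : t ≠ s) (hst : s * t ≠ 1) : Expo o ω := by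
  classical
  choose f hf using hu.surj
  have hs1 : s ≠ 1 := by
    rintro rfl
    exact hu.ne (one_smul _ _)
  let pk : Bool → A → A × B := fun _ a => (s, f a)
  have hpk : Picks o ω pk := by
    intro c a _
    exact ⟨hu.ne, hf a⟩
  have hfree : ∀ g : A, g • o = o → g = 1 := fun g hg => hu.free g 1 (by rw [hg, one_smul])
  choose V hV hl using fun n => tight_all (A := A) n h.sh
  -- the list for the bits `c`
  let G : List Bool → List (A × B) := fun c =>
    weave t (false :: c) (serve pk [] (V (c.length + 1)))
  have hserve : ∀ n, (serve pk [] (V (n + 1))).length = 2 * n + 1 := by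
    intro n
    have hl' := hl (n + 1)
    cases hF : V (n + 1) with
    | nil => rw [hF] at hl'; simp at hl'
    | cons e W =>
      rw [length_serve]
      rw [hF] at hl'
      simp only [List.length_cons] at hl'
      omega
  have hmin : ∀ (n : ℕ) (cs : List Bool), IsMin o ω (weave t cs (serve pk [] (V (n + 1)))) := by
    intro n cs W hW
    have hcfg := serve_config (s := s) (f := f) [] (V (n + 1))
    have e1 : evL o (sh ω) (secList o ω (weave t cs (serve pk [] (V (n + 1)))) o) =
        evL o (sh ω) (wordL (V (n + 1))) := by
      rw [evL_secList_weave_left, secList_serve hpk [] _ (hV _).chain]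
      intro e he
      have h1 : (e.1 * t) • o ≠ o := by
        intro h2
        have := hfree _ h2
        rcases hcfg e he with h3 | h3
        · rw [h3, one_mul] at this; exact ht this
        · rw [h3] at this; exact hst this
      have h2 : (e.1 * t) • o ≠ s • o := by
        intro h2
        have := hu.free _ _ h2
        rcases hcfg e he with h3 | h3
        · rw [h3, one_mul] at this; exact hts this
        · rw [h3] at this; exact ht (mul_eq_left.1 this)
      simp only [secLet, if_neg h1, letP_inl, hu.triv _ h1 h2, map_one]
    have e2 : evL o (sh ω) (secList o ω (weave t cs (serve pk [] (V (n + 1)))) (t⁻¹ • o)) =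
        evL o (sh ω) (wordL (V (n + 1))) := by
      rw [evL_secList_weave_right, smul_inv_smul, secList_serve hpk [] _ (hV _).chain]
      intro e he
      have h1 : e.1 • t⁻¹ • o ≠ o := by
        rw [← mul_smul]
        intro h2
        have := hfree _ h2
        rcases hcfg e he with h3 | h3
        · rw [h3, one_mul] at this; exact ht (inv_eq_one.1 this)
        · rw [h3] at this; exact hts (mul_inv_eq_one.1 this).symm
      have h2 : e.1 • t⁻¹ • o ≠ s • o := by
        rw [← mul_smul]
        intro h2
        have := hu.free _ _ h2
        rcases hcfg e he with h3 | h3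
        · rw [h3, one_mul] at this
          apply hst
          rw [← this, inv_mul_cancel]
        · rw [h3] at this
          exact ht (inv_eq_one.1 (mul_eq_left.1 this))
      simp only [secLet, if_neg h1, letP_inl, hu.triv _ h1 h2, map_one]
    have hn := nuGe_wordL (hV (n + 1)).min
    rw [hl] at hn
    have hn1 := hn
    have hn2 := hn
    rw [← e1] at hn1
    rw [← e2] at hn2
    have c1 := count_O hW hn1
    have c2 := count_K hW hn1
    have c3 := count_O hW hn2
    have c4 := count_K hW hn2
    -- description of the four counted sets
    have kK : ∀ (x : X) (e : A × B), atK o ω x e = true → e.1 • x = s • o := by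
      intro x e he
      simp only [atK, decide_eq_true_eq] at he
      by_contra h1
      exact he.2 (hu.triv _ he.1 h1 _)
    have kO : ∀ (x : X) (e : A × B), atO o x e = true → e.1 • x = o := by
      intro x e he
      simpa [atO] using he
    have c5 := countP_four (atO o o) (atK o ω o) (atO o (t⁻¹ • o)) (atK o ω (t⁻¹ • o)) W
      (fun e => atO_atK_disj e)
      (by
        intro e ⟨h1, h2⟩
        have h3 := (kO _ _ h1).trans (kO _ _ h2).symm
        have h4 := smul_left_cancel _ h3
        exact ht (inv_eq_one.1 (hfree _ h4.symm)))
      (by
        intro e ⟨h1, h2⟩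
        have h3 := hfree _ (kO _ _ h1)
        have h4 := kK _ _ h2
        rw [h3, one_smul] at h4
        apply hst
        rw [← hu.free _ _ h4, inv_mul_cancel])
      (by
        intro e ⟨h1, h2⟩
        have h3 := hu.free _ _ (kK _ _ h1)
        have h4 := kO _ _ h2
        rw [h3, ← mul_smul] at h4
        exact hts (mul_inv_eq_one.1 (hfree _ h4)).symm)
      (by
        intro e ⟨h1, h2⟩
        have h3 := (kK _ _ h1).trans (kK _ _ h2).symm
        have h4 := smul_left_cancel _ h3
        exact ht (inv_eq_one.1 (hfree _ h4.symm)))
      (fun e => atO_atK_disj e)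
    rw [length_weave, hserve]
    omega
  refine ⟨4, G, fun c => ⟨⟨?_, ?_, ?_, hmin _ _⟩, ?_⟩, ?_⟩
  · exact weave_ne t _ _ (serve_ne hpk [] _ (hV _).chain (hV _).ne)
  · exact weave_chain t ht _ _ (serve_chain' hs1 hts hst [] _)
  · intro e he
    have h1 := head_serve pk [] (V (c.length + 1))
    cases hS : serve pk [] (V (c.length + 1)) with
    | nil =>
      change e ∈ (weave t (false :: c) (serve pk [] (V (c.length + 1)))).head? at he
      rw [hS] at he
      simp [weave] at he
    | cons e' U =>
      change e ∈ (weave t (false :: c) (serve pk [] (V (c.length + 1)))).head? at he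
      rw [hS] at he h1
      simp [weave] at he
      rw [← he]
      exact h1 e' (by simp)
  · change (weave t (false :: c) (serve pk [] (V (c.length + 1)))).length ≤ _
    rw [length_weave, hserve]
    omega
  · intro c c' hcc heq
    change weave t (false :: c) (serve pk [] (V (c.length + 1))) =
      weave t (false :: c') (serve pk [] (V (c'.length + 1))) at heq
    rw [← hcc] at heq
    have h1 := weave_bits t ht _ _ _ (by simp [hcc]) (by rw [hserve]; simp; omega) heq
    exact (List.cons.inj h1).2

end weave

end Pool.Agent.Helper90.Spinal
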